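import Pool.Agent.TH498.KB.Blocks
import Pool.Agent.Results.MP_4d5ce1_nt.AlmostAllPoints

/-!
# Pairs of coprime integers where a form has a small radical: the parts of the form
-/

set_option autoImplicit false

namespace Pool.Agent.T2h19.SZ

open Finset Polynomial Pool.Agent.W4.CF Pool.Agent.W4.VC Pool.Agent.TH498.KB

/-- the factors of a form without multiple factors: sub-products, and the radicals of the values -/
theorem split {ι : Type} [Fintype ι] [DecidableEq ι] (F : ι → ℤ[X]) (d : ι → ℕ)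
    (hd : ∀ k, (F k).natDegree ≤ d k) (hsq : Sqf (∏ k, F k) (∑ k, d k)) :
    (∀ J : Finset ι, Sqf (∏ k ∈ J, F k) (∑ k ∈ J, d k)) ∧
    ∃ M0 : ℕ, 1 ≤ M0 ∧ ∀ (m : ℕ) (a b : ℤ), IsCoprime a b → (∀ k, hom (F k) (d k) a b ≠ 0) →
      ∏ k, radp (m * M0) (hom (F k) (d k) a b).natAbs ≤
        radp m (hom (∏ k, F k) (∑ k, d k) a b).natAbs := by
  classical
  have hsub : ∀ J : Finset ι, Sqf (∏ k ∈ J, F k) (∑ k ∈ J, d k) ∧ ∃ M : ℕ, 1 ≤ M ∧
      ∀ a b : ℤ, IsCoprime a b → ∀ p : ℕ, p.Prime →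
        (p : ℤ) ∣ ∏ k ∈ J, hom (F k) (d k) a b → (p : ℤ) ∣ ∏ k ∈ Jᶜ, hom (F k) (d k) a b →
        p ∣ M := by
    intro J
    have h1 : (∏ k ∈ J, F k) * (∏ k ∈ Jᶜ, F k) = ∏ k, F k := prod_mul_prod_compl J F
    have h2 : (∑ k ∈ J, d k) + (∑ k ∈ Jᶜ, d k) = ∑ k, d k := sum_add_sum_compl J d
    have hp := fun (K : Finset ι) (a b : ℤ) => hom_prod K F d (fun i _ => hd i) a b
    have h3 := Pool.Agent.W290.VC.t_RES (∏ k ∈ J, F k) (∏ k ∈ Jᶜ, F k) (∑ k ∈ J, d k)
      (∑ k ∈ Jᶜ, d k) (hp J 0 0).1 (hp Jᶜ 0 0).1 (by rw [h1, h2]; exact hsq)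
    obtain ⟨a1, -, M, hM, h4⟩ := h3
    refine ⟨a1, M, hM, ?_⟩
    intro a b hab p hpp x1 x2
    rw [← (hp J a b).2] at x1
    rw [← (hp Jᶜ a b).2] at x2
    exact h4 a b hab p hpp x1 x2
  choose hS M hM hMp using hsub
  refine ⟨hS, ∏ k : ι, M {k}, ?_, ?_⟩
  · exact Nat.one_le_iff_ne_zero.mpr (prod_ne_zero_iff.mpr fun k _ => by
      have := hM {k}
      omega)
  intro m a b hab hne
  rw [(hom_prod univ F d (fun i _ => hd i) a b).2]
  have e1 : (∏ k, hom (F k) (d k) a b).natAbs = ∏ k, (hom (F k) (d k) a b).natAbs :=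
    map_prod Int.natAbsHom _ _
  rw [e1]
  refine le_trans ?_ (radp_mono_left m (∏ k : ι, M {k}) _)
  apply prod_radp_le
  · intro k
    exact Int.natAbs_ne_zero.mpr (hne k)
  · intro k k' hkk' q hq q1 q2
    have f1 : (q : ℤ) ∣ ∏ l ∈ ({k} : Finset ι), hom (F l) (d l) a b := by
      rw [prod_singleton]
      exact Int.natCast_dvd.mpr q1
    have f2 : (q : ℤ) ∣ ∏ l ∈ ({k} : Finset ι)ᶜ, hom (F l) (d l) a b := by
      refine (Int.natCast_dvd.mpr q2).trans (dvd_prod_of_mem _ ?_)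
      rw [mem_compl, mem_singleton]
      exact Ne.symm hkk'
    have f3 := hMp {k} a b hab q hq f1 f2
    exact (f3.trans (dvd_prod_of_mem (fun k => M {k}) (mem_univ k))).mul_left m

theorem hom_one (f : ℤ[X]) (a b : ℤ) : hom f 1 a b = a * f.coeff 1 + b * f.coeff 0 := by
  unfold hom
  simp [sum_range_succ]
  ring

/-- two different linear factors -/
theorem indep (f g : ℤ[X]) (hf : f.natDegree ≤ 1) (hg : g.natDegree ≤ 1) (h : Sqf (f * g) 2) :
    f.coeff 1 * g.coeff 0 ≠ g.coeff 1 * f.coeff 0 := by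
  intro heq
  obtain ⟨h1, -, h3⟩ := h
  have hfg0 : f * g ≠ 0 := by
    rintro h0
    rw [h0, Polynomial.map_zero] at h1
    exact not_squarefree_zero h1
  have hf0 : f ≠ 0 := left_ne_zero_of_mul hfg0
  have hg0 : g ≠ 0 := right_ne_zero_of_mul hfg0
  rw [natDegree_mul hf0 hg0] at h3
  have ef : f = C (f.coeff 1) * X + C (f.coeff 0) := by
    exact eq_X_add_C_of_natDegree_le_one hf
  have eg : g = C (g.coeff 1) * X + C (g.coeff 0) := by
    exact eq_X_add_C_of_natDegree_le_one hg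
  have rel : C (g.coeff 1) * f = C (f.coeff 1) * g := by
    have h2 : C (f.coeff 1) * C (g.coeff 0) = C (g.coeff 1) * C (f.coeff 0) := by
      rw [← C_mul, ← C_mul, heq]
    calc C (g.coeff 1) * f = C (g.coeff 1) * (C (f.coeff 1) * X + C (f.coeff 0)) := by rw [← ef]
      _ = C (f.coeff 1) * (C (g.coeff 1) * X + C (g.coeff 0)) := by
          linear_combination (-1 : ℤ[X]) * h2
      _ = C (f.coeff 1) * g := by rw [← eg]
  rw [Polynomial.map_mul, squarefree_mul_iff] at h1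
  obtain ⟨h5, h6, h7⟩ := h1
  -- at least one of the factors has degree one
  have key : ∀ u v : ℤ[X], u.natDegree = 1 → v ≠ 0 → v.natDegree ≤ 1 →
      C (v.coeff 1) * u = C (u.coeff 1) * v → IsRelPrime (u.map (Int.castRingHom ℚ))
        (v.map (Int.castRingHom ℚ)) → False := by
    intro u v hu hv0 hv hrel hrp
    have hu1 : u.coeff 1 ≠ 0 := by
      have : u.leadingCoeff ≠ 0 := leadingCoeff_ne_zero.2 (by rintro rfl; simp at hu)
      rwa [leadingCoeff, hu] at this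
    have hv1 : v.coeff 1 ≠ 0 := by
      intro h0
      rw [h0, C_0, zero_mul] at hrel
      rcases mul_eq_zero.1 hrel.symm with h | h
      · exact hu1 (C_eq_zero.1 h)
      · exact hv0 h
    have hd : u.map (Int.castRingHom ℚ) ∣ v.map (Int.castRingHom ℚ) := by
      refine ⟨C ((v.coeff 1 : ℚ) / (u.coeff 1 : ℚ)), ?_⟩
      have h8 := congrArg (Polynomial.map (Int.castRingHom ℚ)) hrel
      simp only [Polynomial.map_mul, map_C] at h8
      have hu1' : (u.coeff 1 : ℚ) ≠ 0 := by exact_mod_cast hu1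
      have h9 : C ((v.coeff 1 : ℚ) / (u.coeff 1 : ℚ)) =
          C ((u.coeff 1 : ℚ)⁻¹) * C ((v.coeff 1 : ℚ)) := by
        rw [← C_mul]; congr 1; field_simp
      rw [h9]
      calc v.map (Int.castRingHom ℚ) = C ((u.coeff 1 : ℚ)⁻¹) * (C ((u.coeff 1 : ℚ)) *
            v.map (Int.castRingHom ℚ)) := by
            rw [← mul_assoc, ← C_mul, inv_mul_cancel₀ hu1', C_1, one_mul]
        _ = C ((u.coeff 1 : ℚ)⁻¹) * (C ((v.coeff 1 : ℚ)) * u.map (Int.castRingHom ℚ)) := by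
            have : C ((u.coeff 1 : ℚ)) * v.map (Int.castRingHom ℚ) =
                C ((v.coeff 1 : ℚ)) * u.map (Int.castRingHom ℚ) := by
              simpa using h8.symm
            rw [this]
        _ = _ := by ring
    have hunit := hrp (dvd_refl _) hd
    have h10 := natDegree_eq_zero_of_isUnit hunit
    rw [natDegree_map_eq_of_injective (Int.castRingHom ℚ).injective_int] at h10
    omega
  rcases Nat.lt_or_ge f.natDegree 1 with hlt | hge
  · have hg1 : g.natDegree = 1 := by omega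
    exact key g f hg1 hf0 hf rel.symm h5.symm
  · exact key f g (by omega) hg0 hg rel h5

theorem log_radp (m n : ℕ) (hm : m ≠ 0) :
    Real.log (radp m n : ℝ) = ∑ p ∈ n.primeFactors \ m.primeFactors, Real.log (p : ℝ) := by
  have e : n.primeFactors.filter (fun p => ¬ p ∣ m) = n.primeFactors \ m.primeFactors := by
    ext p
    rw [mem_filter, mem_sdiff]
    constructor
    · rintro ⟨h1, h2⟩
      exact ⟨h1, fun h => h2 (Nat.dvd_of_mem_primeFactors h)⟩
    · rintro ⟨h1, h2⟩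
      exact ⟨h1, fun h => h2 (Nat.mem_primeFactors.2 ⟨Nat.prime_of_mem_primeFactors h1, h, hm⟩)⟩
  unfold radp
  rw [e]
  push_cast
  rw [Real.log_prod]
  intro p hp
  have := (Nat.prime_of_mem_primeFactors (mem_sdiff.1 hp).1).ne_zero
  exact_mod_cast this

open Pool.Agent.Results.MP_4d5ce1_nt.AllHeightsSharp in
/-- few points where the radical of the product of the linear forms is small compared with the
height -/
theorem big_points (L : ℕ) (hL : 3 ≤ L) (h : Fin L → ℤ[X])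
    (hind : ∀ i j, i ≠ j → (h i).coeff 1 * (h j).coeff 0 ≠ (h j).coeff 1 * (h i).coeff 0)
    (m : ℕ) (hm : m ≠ 0) (ε : ℝ) (hε : 0 < ε) :
    ∃ ν : ℝ, 0 < ν ∧ ∃ C : ℝ, 0 < C ∧ ∀ Z : ℝ, 1 ≤ Z → ∀ s : Finset (ℤ × ℤ),
      (∀ p ∈ s, IsCoprime p.1 p.2 ∧ 0 < p.2 ∧ (∀ i, hom (h i) 1 p.1 p.2 ≠ 0) ∧
        ((∏ i, radp m (hom (h i) 1 p.1 p.2).natAbs : ℕ) : ℝ) ≤ Z ∧
        Real.log ((∏ i, radp m (hom (h i) 1 p.1 p.2).natAbs : ℕ) : ℝ) <
          ((L : ℝ) - ε) * Real.log (max p.1.natAbs p.2.natAbs : ℕ)) →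
      (s.card : ℝ) ≤ C * Z ^ ((2 : ℝ) / L - ν) := by
  classical
  let α : Fin L → ℤ × ℤ := fun i => (-(h i).coeff 0, (h i).coeff 1)
  have hα : ∀ i j, i ≠ j → (α i).1 * (α j).2 ≠ (α j).1 * (α i).2 := by
    intro i j hij h0
    apply hind i j hij
    simp only [α] at h0
    linarith
  have hval : ∀ (x : ℤ × ℤ) (i : Fin L), x.1 * (α i).2 - x.2 * (α i).1 = hom (h i) 1 x.1 x.2 := by
    intro x i
    rw [hom_one]
    simp only [α]
    ring
  obtain ⟨ν, hν, C, hC, hmain⟩ := Pool.Agent.Y911.PL.exceptions_le hL α hα m.primeFactors hε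
  refine ⟨ν, hν, C, hC, fun Z hZ s hs => ?_⟩
  have hN1 : ∀ x : ℤ × ℤ, (∀ i, hom (h i) 1 x.1 x.2 ≠ 0) → N1 α m.primeFactors x =
      Real.log ((∏ i, radp m (hom (h i) 1 x.1 x.2).natAbs : ℕ) : ℝ) := by
    intro x hx
    unfold N1
    rw [Nat.cast_prod, Real.log_prod (fun i _ => by exact_mod_cast (radp_pos m _).ne')]
    refine Finset.sum_congr rfl fun i _ => ?_
    rw [log_radp m _ hm, hval]
  refine le_trans ?_ (hmain Z hZ)
  have hfin : ({x | x ∈ Pts α m.primeFactors Z ∧ N1 α m.primeFactors x <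
      ((L : ℝ) - ε) * Pool.Agent.Y911.PL.hh x} : Set (ℤ × ℤ)).Finite :=
    (Pool.Agent.Y911.PL.pts_finite hL α hα m.primeFactors hZ).subset fun x hx => hx.1
  have hsub : (s : Set (ℤ × ℤ)) ⊆ {x | x ∈ Pts α m.primeFactors Z ∧ N1 α m.primeFactors x <
      ((L : ℝ) - ε) * Pool.Agent.Y911.PL.hh x} := by
    intro x hx
    obtain ⟨h1, h2, h3, h4, h5⟩ := hs x (Finset.mem_coe.1 hx)
    have hpos : (0 : ℝ) < ((∏ i, radp m (hom (h i) 1 x.1 x.2).natAbs : ℕ) : ℝ) := by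
      exact_mod_cast Finset.prod_pos fun i _ => radp_pos m _
    refine ⟨⟨⟨h1, Or.inl h2⟩, fun i => by rw [hval]; exact h3 i, ?_⟩, ?_⟩
    · rw [hN1 x h3]
      exact Real.log_le_log hpos h4
    · rw [hN1 x h3]
      exact h5
  have := Set.ncard_le_ncard hsub hfin
  rw [Set.ncard_coe_finset] at this
  exact_mod_cast this

/-- few pairs in a box are close to the line where a linear form vanishes -/
theorem small_lin (f g : ℤ[X]) (hind : f.coeff 1 * g.coeff 0 ≠ g.coeff 1 * f.coeff 0) :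
    ∃ C : ℝ, 0 < C ∧ ∀ U V : ℝ, 1 ≤ U → 1 ≤ V → ∀ s : Finset (ℤ × ℤ),
      (∀ p ∈ s, |(p.1 : ℝ)| ≤ V ∧ |(p.2 : ℝ)| ≤ V ∧ |((hom f 1 p.1 p.2 : ℤ) : ℝ)| ≤ U) →
      (s.card : ℝ) ≤ C * (U * V) := by
  obtain ⟨K, hK, hbd⟩ := Pool.Agent.W505.VC.t_HOM.2.1 g 1
  refine ⟨9 * K, by positivity, fun U V hU hV s hs => ?_⟩
  set a : ℤ := ⌊U⌋ with ha
  set b : ℤ := ⌊K * V⌋ with hb
  have ha0 : 1 ≤ a := Int.le_floor.2 (by exact_mod_cast hU)
  have hKV : 1 ≤ K * V := by nlinarith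
  have hb0 : 1 ≤ b := Int.le_floor.2 (by exact_mod_cast hKV)
  have hcard : s.card ≤ ((Icc (-a) a) ×ˢ (Icc (-b) b)).card := by
    refine Finset.card_le_card_of_injOn (fun p => (hom f 1 p.1 p.2, hom g 1 p.1 p.2)) ?_ ?_
    · intro p hp
      obtain ⟨h1, h2, h3⟩ := hs p (Finset.mem_coe.1 hp)
      rw [mem_coe, mem_product, mem_Icc, mem_Icc]
      refine ⟨abs_le.1 (Int.le_floor.2 ?_), abs_le.1 (Int.le_floor.2 ?_)⟩
      · push_cast
        exact h3
      · push_cast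
        have h4 := hbd p.1 p.2
        rw [pow_one] at h4
        refine h4.trans ?_
        exact mul_le_mul_of_nonneg_left (max_le h1 h2) (by linarith)
    · intro p _ p' _ heq
      simp only [Prod.mk.injEq, hom_one] at heq
      obtain ⟨h1, h2⟩ := heq
      have hd : f.coeff 1 * g.coeff 0 - g.coeff 1 * f.coeff 0 ≠ 0 := sub_ne_zero.2 hind
      have e1 : (p.1 - p'.1) * (f.coeff 1 * g.coeff 0 - g.coeff 1 * f.coeff 0) = 0 := by
        linear_combination g.coeff 0 * h1 - f.coeff 0 * h2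
      have e2 : (p.2 - p'.2) * (f.coeff 1 * g.coeff 0 - g.coeff 1 * f.coeff 0) = 0 := by
        linear_combination f.coeff 1 * h2 - g.coeff 1 * h1
      have e3 := (mul_eq_zero.1 e1).resolve_right hd
      have e4 := (mul_eq_zero.1 e2).resolve_right hd
      exact Prod.ext (sub_eq_zero.1 e3) (sub_eq_zero.1 e4)
  rw [card_product, Int.card_Icc, Int.card_Icc] at hcard
  have h1 : (((a + 1 - -a).toNat : ℕ) : ℝ) ≤ 3 * U := by
    have : (((a + 1 - -a).toNat : ℕ) : ℤ) = 2 * a + 1 := by omega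
    have e : (((a + 1 - -a).toNat : ℕ) : ℝ) = 2 * (a : ℝ) + 1 := by exact_mod_cast this
    rw [e]
    have := Int.floor_le U
    rw [← ha] at this
    linarith
  have h2 : (((b + 1 - -b).toNat : ℕ) : ℝ) ≤ 3 * (K * V) := by
    have : (((b + 1 - -b).toNat : ℕ) : ℤ) = 2 * b + 1 := by omega
    have e : (((b + 1 - -b).toNat : ℕ) : ℝ) = 2 * (b : ℝ) + 1 := by exact_mod_cast this
    rw [e]
    have := Int.floor_le (K * V)
    rw [← hb] at this
    linarith
  calc (s.card : ℝ) ≤ (((a + 1 - -a).toNat * (b + 1 - -b).toNat : ℕ) : ℝ) := by exact_mod_cast hcard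
    _ = (((a + 1 - -a).toNat : ℕ) : ℝ) * (((b + 1 - -b).toNat : ℕ) : ℝ) := by push_cast; ring
    _ ≤ (3 * U) * (3 * (K * V)) := mul_le_mul h1 h2 (Nat.cast_nonneg _) (by linarith)
    _ = 9 * K * (U * V) := by ring

end Pool.Agent.T2h19.SZ
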