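import Pool.Agent.T2h19.SZ.P1

/-!
# Pairs of coprime integers where a form with linear and quadratic factors has a small radical
-/

set_option autoImplicit false

namespace Pool.Agent.T2h19.SZ

open Finset Polynomial Pool.Agent.W4.CF Pool.Agent.W4.VC Pool.Agent.TH498.KB

/-- a form without multiple factors: `w` quadratic and `L ≥ 3` linear factors -/
structure Fm (w L : ℕ) (g : Fin w → ℤ[X]) (h : Fin L → ℤ[X]) : Prop where
  hL : 3 ≤ L
  hg : ∀ j, (g j).natDegree ≤ 2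
  hh : ∀ i, (h i).natDegree ≤ 1
  hsq : Sqf ((∏ j, g j) * ∏ i, h i) (2 * w + L)

/-- the consequences of `split` -/
theorem Fm.parts {w L : ℕ} {g : Fin w → ℤ[X]} {h : Fin L → ℤ[X]} (hF : Fm w L g h) :
    (∀ j, Sqf (g j) 2) ∧ (∀ i i', i ≠ i' → Sqf (h i * h i') 2) ∧
    ∃ M0 : ℕ, 1 ≤ M0 ∧ ∀ (m : ℕ) (a b : ℤ), IsCoprime a b → (∀ j, hom (g j) 2 a b ≠ 0) →
      (∀ i, hom (h i) 1 a b ≠ 0) →
      (∏ j, radp (m * M0) (hom (g j) 2 a b).natAbs) *
        (∏ i, radp (m * M0) (hom (h i) 1 a b).natAbs) ≤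
        radp m (hom ((∏ j, g j) * ∏ i, h i) (2 * w + L) a b).natAbs := by
  classical
  let F : Fin w ⊕ Fin L → ℤ[X] := Sum.elim g h
  let d : Fin w ⊕ Fin L → ℕ := Sum.elim (fun _ => 2) (fun _ => 1)
  have hprod : ∏ k, F k = (∏ j, g j) * ∏ i, h i := by
    rw [Fintype.prod_sum_type]
    rfl
  have hdd : ∑ k, d k = 2 * w + L := by
    rw [Fintype.sum_sum_type]
    simp [d]
    ring
  have hd : ∀ k, (F k).natDegree ≤ d k := by
    rintro (j | i)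
    · exact hF.hg j
    · exact hF.hh i
  obtain ⟨h1, M0, hM0, h2⟩ := split F d hd (by rw [hprod, hdd]; exact hF.hsq)
  refine ⟨fun j => ?_, fun i i' hii' => ?_, M0, hM0, fun m a b hab hg0 hh0 => ?_⟩
  · have := h1 {Sum.inl j}
    rw [prod_singleton, sum_singleton] at this
    exact this
  · have := h1 {Sum.inr i, Sum.inr i'}
    have hne : (Sum.inr i : Fin w ⊕ Fin L) ≠ Sum.inr i' := fun hc => hii' (Sum.inr_injective hc)
    rw [prod_pair hne, sum_pair hne] at this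
    exact this
  · have := h2 m a b hab (by
      rintro (j | i)
      · exact hg0 j
      · exact hh0 i)
    rw [hprod, hdd, Fintype.prod_sum_type] at this
    exact this

theorem radp_le_abs (m : ℕ) {x : ℤ} (hx : x ≠ 0) : (radp m x.natAbs : ℝ) ≤ |(x : ℝ)| := by
  have h1 : radp m x.natAbs ∣ x.natAbs := by
    unfold radp
    refine (Finset.prod_dvd_prod_of_subset _ _ _ (filter_subset _ _)).trans ?_
    exact Nat.prod_primeFactors_dvd _
  have h2 := Nat.le_of_dvd (Int.natAbs_pos.2 hx) h1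
  have h3 : ((x.natAbs : ℕ) : ℝ) = |(x : ℝ)| := by
    rw [Nat.cast_natAbs]
    push_cast
    rfl
  rw [← h3]
  exact_mod_cast h2

theorem max_cast (p : ℤ × ℤ) :
    ((max p.1.natAbs p.2.natAbs : ℕ) : ℝ) = max |(p.1 : ℝ)| |(p.2 : ℝ)| := by
  rw [Nat.cast_max, Nat.cast_natAbs, Nat.cast_natAbs]
  push_cast
  rfl

/-- trivial bound -/
theorem box_card (V : ℝ) (hV : 1 ≤ V) (s : Finset (ℤ × ℤ))
    (hs : ∀ p ∈ s, |(p.1 : ℝ)| ≤ V ∧ |(p.2 : ℝ)| ≤ V) : (s.card : ℝ) ≤ 9 * V ^ 2 := by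
  set a : ℤ := ⌊V⌋ with ha
  have ha0 : 1 ≤ a := Int.le_floor.2 (by exact_mod_cast hV)
  have hcard : s.card ≤ ((Icc (-a) a) ×ˢ (Icc (-a) a)).card := by
    refine Finset.card_le_card fun p hp => ?_
    obtain ⟨h1, h2⟩ := hs p hp
    rw [mem_product, mem_Icc, mem_Icc]
    exact ⟨abs_le.1 (Int.le_floor.2 (by push_cast; exact h1)),
      abs_le.1 (Int.le_floor.2 (by push_cast; exact h2))⟩
  rw [card_product, Int.card_Icc] at hcard
  have h1 : (((a + 1 - -a).toNat : ℕ) : ℝ) ≤ 3 * V := by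
    have : (((a + 1 - -a).toNat : ℕ) : ℤ) = 2 * a + 1 := by omega
    have e : (((a + 1 - -a).toNat : ℕ) : ℝ) = 2 * (a : ℝ) + 1 := by exact_mod_cast this
    rw [e]
    have := Int.floor_le V
    rw [← ha] at this
    linarith
  calc (s.card : ℝ) ≤ (((a + 1 - -a).toNat * (a + 1 - -a).toNat : ℕ) : ℝ) := by exact_mod_cast hcard
    _ = (((a + 1 - -a).toNat : ℕ) : ℝ) * (((a + 1 - -a).toNat : ℕ) : ℝ) := by push_cast; ring
    _ ≤ (3 * V) * (3 * V) := mul_le_mul h1 h1 (Nat.cast_nonneg _) (by linarith)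
    _ = 9 * V ^ 2 := by ring

/-- the pairs that behave as expected -/
def Good {w L : ℕ} (g : Fin w → ℤ[X]) (h : Fin L → ℤ[X]) (δ X : ℝ) (p : ℤ × ℤ) : Prop :=
  (∀ j, X ^ (2 / (2 * (w : ℝ) + L) - δ) ≤ |((hom (g j) 2 p.1 p.2 : ℤ) : ℝ)|) ∧
  (∀ i, X ^ (1 / (2 * (w : ℝ) + L) - δ) ≤ |((hom (h i) 1 p.1 p.2 : ℤ) : ℝ)|) ∧
  max |(p.1 : ℝ)| |(p.2 : ℝ)| ≤ X ^ (1 / (2 * (w : ℝ) + L) + δ)

theorem Good.mono {w L : ℕ} {g : Fin w → ℤ[X]} {h : Fin L → ℤ[X]} {δ δ' X : ℝ} {p : ℤ × ℤ}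
    (hX : 1 ≤ X) (hδ : δ' ≤ δ) (hg : Good g h δ' X p) : Good g h δ X p := by
  obtain ⟨h1, h2, h3⟩ := hg
  refine ⟨fun j => le_trans ?_ (h1 j), fun i => le_trans ?_ (h2 i), h3.trans ?_⟩
  · exact Real.rpow_le_rpow_of_exponent_le hX (by linarith)
  · exact Real.rpow_le_rpow_of_exponent_le hX (by linarith)
  · exact Real.rpow_le_rpow_of_exponent_le hX (by linarith)

/-- the hypotheses on a pair -/
def Adm {w L : ℕ} (g : Fin w → ℤ[X]) (h : Fin L → ℤ[X]) (m : ℕ) (Y R : ℝ) (p : ℤ × ℤ) : Prop :=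
  IsCoprime p.1 p.2 ∧ 0 < p.2 ∧ |(p.1 : ℝ)| ≤ Y ∧ |(p.2 : ℝ)| ≤ Y ∧
  (∀ j, hom (g j) 2 p.1 p.2 ≠ 0) ∧ (∀ i, hom (h i) 1 p.1 p.2 ≠ 0) ∧
  (radp m (hom ((∏ j, g j) * ∏ i, h i) (2 * w + L) p.1 p.2).natAbs : ℝ) ≤ R

/-- **Pairs of coprime integers.** -/
theorem good_pairs {w L : ℕ} {g : Fin w → ℤ[X]} {h : Fin L → ℤ[X]} (hF : Fm w L g h) (m : ℕ)
    (hm : 1 ≤ m) (A B δ : ℝ) (hA : 0 < A) (hB : 1 ≤ B) (hδ : 0 < δ) :
    ∃ η : ℝ, 0 < η ∧ ∃ C : ℝ, 0 < C ∧ ∀ X : ℝ, 1 ≤ X → ∀ s : Finset (ℤ × ℤ),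
      (∀ p ∈ s, Adm g h m (B * X ^ A) (B * X) p ∧ ¬ Good g h δ X p) →
      (s.card : ℝ) ≤ C * X ^ (2 / (2 * (w : ℝ) + L) - η) := by
  classical
  obtain ⟨hsg, hsh, M0, hM0, hrad⟩ := hF.parts
  have hL := hF.hL
  have hLr : (3 : ℝ) ≤ L := by exact_mod_cast hL
  have hw0 : (0 : ℝ) ≤ w := Nat.cast_nonneg w
  obtain ⟨q, hq⟩ : ∃ q : ℝ, q = 2 * (w : ℝ) + L := ⟨_, rfl⟩
  have hq3 : 3 ≤ q := by rw [hq]; linarith
  have hq0 : 0 < q := by linarith
  have hind : ∀ i j, i ≠ j → (h i).coeff 1 * (h j).coeff 0 ≠ (h j).coeff 1 * (h i).coeff 0 :=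
    fun i j hij => indep (h i) (h j) (hF.hh i) (hF.hh j) (hsh i j hij)
  obtain ⟨δ0, hδ0e⟩ : ∃ δ0 : ℝ, δ0 = min δ (1 / (2 * q)) := ⟨_, rfl⟩
  have hδ0 : 0 < δ0 := by rw [hδ0e]; exact lt_min hδ (by positivity)
  have hδ0δ : δ0 ≤ δ := by rw [hδ0e]; exact min_le_left _ _
  have hδ0q : δ0 ≤ 1 / (2 * q) := by rw [hδ0e]; exact min_le_right _ _
  obtain ⟨δ', hδ'e⟩ : ∃ δ' : ℝ, δ' = δ0 / 2 := ⟨_, rfl⟩
  have hδ' : 0 < δ' := by rw [hδ'e]; positivity
  have hqi : 0 < 1 / q := by positivity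
  have hsum : 0 < 1 / q + δ' := by positivity
  obtain ⟨ε, hεe⟩ : ∃ ε : ℝ, ε = (L * δ' / 2) / (1 / q + δ') := ⟨_, rfl⟩
  have hε : 0 < ε := by rw [hεe]; positivity
  have hprodε : ((L : ℝ) - ε) * (1 / q + δ') = L / q + L * δ' / 2 := by
    have : ε * (1 / q + δ') = L * δ' / 2 := by rw [hεe]; field_simp
    rw [sub_mul, this]
    ring
  have hLε : 0 < (L : ℝ) - ε := by
    by_contra hcon
    push Not at hcon
    have : ((L : ℝ) - ε) * (1 / q + δ') ≤ 0 := mul_nonpos_of_nonpos_of_nonneg hcon hsum.le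
    rw [hprodε] at this
    have : 0 < (L : ℝ) / q + L * δ' / 2 := by positivity
    linarith
  have hmM : m * M0 ≠ 0 := by
    have h1 : m ≠ 0 := by omega
    have h2 : M0 ≠ 0 := by omega
    positivity
  obtain ⟨ν, hν, C1, hC1, hbig⟩ := big_points L hL h hind (m * M0) hmM ε hε
  obtain ⟨η1, hη1e⟩ : ∃ η1 : ℝ, η1 = min (min δ0 (L * δ' / (4 * (w + 1))))
    (ν * L ^ 2 / (4 * q * (w + 1))) := ⟨_, rfl⟩
  have hη1 : 0 < η1 := by
    rw [hη1e]
    exact lt_min (lt_min hδ0 (by positivity)) (by positivity)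
  have hη1δ : η1 ≤ δ0 := by rw [hη1e]; exact (min_le_left _ _).trans (min_le_left _ _)
  have hη1b : η1 ≤ L * δ' / (4 * (w + 1)) := by
    rw [hη1e]; exact (min_le_left _ _).trans (min_le_right _ _)
  have hη1c : η1 ≤ ν * L ^ 2 / (4 * q * (w + 1)) := by rw [hη1e]; exact min_le_right _ _
  have hwη : w * η1 < L * δ' / 4 := by
    have h1 : (w : ℝ) * η1 ≤ w * (L * δ' / (4 * (w + 1))) := mul_le_mul_of_nonneg_left hη1b hw0
    refine lt_of_le_of_lt h1 ?_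
    have : (w : ℝ) * (L * δ' / (4 * (w + 1))) = (L * δ' / 4) * (w / (w + 1)) := by field_simp
    rw [this]
    have h2 : (w : ℝ) / (w + 1) < 1 := by
      rw [div_lt_one (by positivity)]
      linarith
    have h3 : 0 < (L : ℝ) * δ' / 4 := by positivity
    nlinarith
  have hwη2 : 2 * w * η1 / L ≤ ν * L / (2 * q) := by
    have h1 : (w : ℝ) * η1 ≤ w * (ν * L ^ 2 / (4 * q * (w + 1))) :=
      mul_le_mul_of_nonneg_left hη1c hw0
    have h2 : (w : ℝ) * (ν * L ^ 2 / (4 * q * (w + 1))) = (ν * L ^ 2 / (4 * q)) * (w / (w + 1)) := by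
      field_simp
    have h3 : (w : ℝ) / (w + 1) ≤ 1 := by
      rw [div_le_one (by positivity)]
      linarith
    have h4 : 0 < ν * (L : ℝ) ^ 2 / (4 * q) := by positivity
    have h5 : (w : ℝ) * η1 ≤ ν * L ^ 2 / (4 * q) := by
      refine h1.trans ?_
      rw [h2]
      nlinarith
    have hL0 : (0 : ℝ) < L := by linarith
    rw [div_le_iff₀ hL0]
    calc 2 * (w : ℝ) * η1 = 2 * (w * η1) := by ring
      _ ≤ 2 * (ν * L ^ 2 / (4 * q)) := by linarith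
      _ = ν * L / (2 * q) * L := by field_simp; ring
  -- small radicals of quadratic factors and of products of two linear factors
  obtain ⟨ε2, hε2e⟩ : ∃ ε2 : ℝ, ε2 = η1 / (2 * A) := ⟨_, rfl⟩
  have hε2 : 0 < ε2 := by rw [hε2e]; positivity
  have hA2 : A * ε2 = η1 / 2 := by rw [hε2e]; field_simp
  have hsm1 := fun j => small (g j) 2 (hsg j) le_rfl ε2 hε2
  choose D1 hD1 hD1s using hsm1
  have hsm2 : ∀ t : Fin L × Fin L, ∃ C : ℝ, 0 < C ∧ (t.1 ≠ t.2 → ∀ (m : ℕ) (Y S : ℝ), 1 ≤ m →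
      1 ≤ Y → 0 ≤ S → ∀ s : Finset (ℤ × ℤ),
      (∀ p ∈ s, IsCoprime p.1 p.2 ∧ |(p.1 : ℝ)| ≤ Y ∧ |(p.2 : ℝ)| ≤ Y ∧
        hom (h t.1 * h t.2) 2 p.1 p.2 ≠ 0 ∧
        (radp m (hom (h t.1 * h t.2) 2 p.1 p.2).natAbs : ℝ) ≤ S) →
      (s.card : ℝ) ≤ C * ((m : ℝ) * Y) ^ ε2 * S) := by
    intro t
    by_cases ht : t.1 ≠ t.2
    · obtain ⟨C, hC, h1⟩ := small (h t.1 * h t.2) 2 (hsh t.1 t.2 ht) le_rfl ε2 hε2
      exact ⟨C, hC, fun _ => h1⟩
    · exact ⟨1, one_pos, fun h1 => absurd h1 ht⟩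
  choose D2 hD2 hD2s using hsm2
  have hlin : ∀ i : Fin L, ∃ C : ℝ, 0 < C ∧ ∀ U V : ℝ, 1 ≤ U → 1 ≤ V → ∀ s : Finset (ℤ × ℤ),
      (∀ p ∈ s, |(p.1 : ℝ)| ≤ V ∧ |(p.2 : ℝ)| ≤ V ∧ |((hom (h i) 1 p.1 p.2 : ℤ) : ℝ)| ≤ U) →
      (s.card : ℝ) ≤ C * (U * V) := by
    intro i
    have : ∃ i' : Fin L, i ≠ i' := by
      have : Nontrivial (Fin L) := Fin.nontrivial_iff_two_le.2 (by omega)
      obtain ⟨i', hi'⟩ := exists_ne i
      exact ⟨i', hi'.symm⟩
    obtain ⟨i', hi'⟩ := this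
    exact small_lin (h i) (h i') (hind i i' hi')
  choose D3 hD3 hD3s using hlin
  -- the saving
  obtain ⟨η, hηe⟩ : ∃ η : ℝ, η = min (min (η1 / 2) (δ0 / 2)) (min (ν * L / (2 * q)) (1 / q)) :=
    ⟨_, rfl⟩
  have hη : 0 < η := by
    rw [hηe]
    exact lt_min (lt_min (by positivity) (by positivity)) (lt_min (by positivity) hqi)
  have hηa : η ≤ η1 / 2 := by rw [hηe]; exact (min_le_left _ _).trans (min_le_left _ _)
  have hηb : η ≤ δ0 / 2 := by rw [hηe]; exact (min_le_left _ _).trans (min_le_right _ _)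
  have hηc : η ≤ ν * L / (2 * q) := by rw [hηe]; exact (min_le_right _ _).trans (min_le_left _ _)
  have hηd : η ≤ 1 / q := by rw [hηe]; exact (min_le_right _ _).trans (min_le_right _ _)
  obtain ⟨X0, hX0e⟩ : ∃ X0 : ℝ, X0 = B ^ (4 / (L * δ')) := ⟨_, rfl⟩
  have hX0 : 1 ≤ X0 := by rw [hX0e]; exact Real.one_le_rpow hB (by positivity)
  obtain ⟨κ0, hκ0⟩ : ∃ κ0 : ℝ, κ0 = (((m * M0 : ℕ) : ℝ) * B) ^ ε2 := ⟨_, rfl⟩
  have hκ00 : 0 < κ0 := by
    rw [hκ0]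
    have : (0 : ℝ) < ((m * M0 : ℕ) : ℝ) := by exact_mod_cast Nat.pos_of_ne_zero hmM
    positivity
  have hnη : 0 < (∑ j, D1 j) + 1 := by
    have := Finset.sum_nonneg (s := univ) fun j (_ : j ∈ univ) => (hD1 j).le
    linarith
  obtain ⟨Ct, hCt⟩ : ∃ Ct : ℝ, Ct = 9 * (B * X0 ^ A) ^ 2 + (∑ j, D1 j) * κ0 +
    (∑ t, D2 t) * κ0 + (∑ i, D3 i) + C1 * B ^ ((2 : ℝ) / L) + 1 := ⟨_, rfl⟩
  have hs1 : 0 ≤ ∑ j, D1 j := Finset.sum_nonneg fun j _ => (hD1 j).le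
  have hs2 : 0 ≤ ∑ t, D2 t := Finset.sum_nonneg fun j _ => (hD2 j).le
  have hs3 : 0 ≤ ∑ i, D3 i := Finset.sum_nonneg fun j _ => (hD3 j).le
  have hCt0 : 0 < Ct := by rw [hCt]; positivity
  refine ⟨η, hη, Ct, hCt0, fun X hX s hs => ?_⟩
  have hX0' : 0 < X := by linarith
  rw [← hq]
  have hexp0 : 0 ≤ 2 / q - η := by
    have : 2 / q = 1 / q + 1 / q := by ring
    linarith
  have hpow1 : 1 ≤ X ^ (2 / q - η) := Real.one_le_rpow hX hexp0
  have hXA : 1 ≤ X ^ A := Real.one_le_rpow hX hA.le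
  have hY1 : 1 ≤ B * X ^ A := one_le_mul_of_one_le_of_one_le hB hXA
  rcases lt_or_ge X X0 with hsmall | hlarge
  · -- small X
    have h1 := box_card (B * X ^ A) hY1 s fun p hp => by
      obtain ⟨⟨-, -, h3, h4, -⟩, -⟩ := hs p hp
      exact ⟨h3, h4⟩
    have h2 : B * X ^ A ≤ B * X0 ^ A := by
      have := Real.rpow_le_rpow hX0'.le hsmall.le hA.le
      gcongr
    have h3 : (B * X ^ A) ^ 2 ≤ (B * X0 ^ A) ^ 2 := pow_le_pow_left₀ (by positivity) h2 2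
    have h4 : 9 * (B * X0 ^ A) ^ 2 ≤ Ct := by
      rw [hCt]
      have e1 : 0 ≤ (∑ j, D1 j) * κ0 := by positivity
      have e2 : 0 ≤ (∑ t, D2 t) * κ0 := by positivity
      have e3 : 0 ≤ C1 * B ^ ((2 : ℝ) / L) := by positivity
      linarith
    calc (s.card : ℝ) ≤ 9 * (B * X ^ A) ^ 2 := h1
      _ ≤ 9 * (B * X0 ^ A) ^ 2 := by linarith
      _ ≤ Ct * 1 := by linarith
      _ ≤ Ct * X ^ (2 / q - η) := mul_le_mul_of_nonneg_left hpow1 hCt0.le
  -- large X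
  obtain ⟨T1, hT1⟩ : ∃ T1 : ℝ, T1 = X ^ (2 / q - η1) := ⟨_, rfl⟩
  have hT10 : 0 < T1 := by rw [hT1]; positivity
  obtain ⟨S1, hS1⟩ : ∃ S1 : Fin w → Finset (ℤ × ℤ), S1 = fun j => s.filter fun p =>
    (radp (m * M0) (hom (g j) 2 p.1 p.2).natAbs : ℝ) ≤ T1 := ⟨_, rfl⟩
  obtain ⟨S2, hS2⟩ : ∃ S2 : Fin L × Fin L → Finset (ℤ × ℤ), S2 = fun t => s.filter fun p =>
    t.1 ≠ t.2 ∧ (radp (m * M0) (hom (h t.1 * h t.2) 2 p.1 p.2).natAbs : ℝ) ≤ T1 := ⟨_, rfl⟩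
  obtain ⟨S3, hS3⟩ : ∃ S3 : Fin L → Finset (ℤ × ℤ), S3 = fun i => s.filter fun p =>
    max |(p.1 : ℝ)| |(p.2 : ℝ)| ≤ X ^ (1 / q + δ') ∧
      |((hom (h i) 1 p.1 p.2 : ℤ) : ℝ)| ≤ X ^ (1 / q - δ0) := ⟨_, rfl⟩
  obtain ⟨S4, hS4⟩ : ∃ S4 : Finset (ℤ × ℤ), S4 = s.filter fun p =>
    (∀ j, T1 < (radp (m * M0) (hom (g j) 2 p.1 p.2).natAbs : ℝ)) ∧
      X ^ (1 / q + δ') < max |(p.1 : ℝ)| |(p.2 : ℝ)| := ⟨_, rfl⟩
  have hcover : s ⊆ univ.biUnion S1 ∪ univ.biUnion S2 ∪ univ.biUnion S3 ∪ S4 := by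
    intro p hp
    by_contra hcon
    simp only [mem_union, mem_biUnion, mem_univ, true_and, not_or, not_exists] at hcon
    obtain ⟨⟨⟨n1, n2⟩, n3⟩, n4⟩ := hcon
    rw [hS1] at n1
    rw [hS2] at n2
    rw [hS3] at n3
    rw [hS4] at n4
    simp only [mem_filter, hp, true_and, not_and, not_le, not_lt] at n1 n2 n3 n4
    have n5 := n4 n1
    have n3' := fun i => n3 i n5
    obtain ⟨⟨-, -, -, -, hg0, -, -⟩, hbad⟩ := hs p hp
    refine hbad (Good.mono hX hδ0δ ⟨fun j => ?_, fun i => ?_, ?_⟩)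
    · rw [← hq]
      refine le_trans ?_ (radp_le_abs (m * M0) (hg0 j))
      refine le_trans ?_ (n1 j).le
      rw [hT1]
      exact Real.rpow_le_rpow_of_exponent_le hX (by linarith)
    · rw [← hq]
      exact (n3' i).le
    · rw [← hq]
      refine n5.trans (Real.rpow_le_rpow_of_exponent_le hX ?_)
      rw [hδ'e]
      linarith
  -- the bounds
  have hYe : (((m * M0 : ℕ) : ℝ) * (B * X ^ A)) ^ ε2 * T1 ≤ κ0 * X ^ (2 / q - η) := by
    have e1 : ((m * M0 : ℕ) : ℝ) * (B * X ^ A) = (((m * M0 : ℕ) : ℝ) * B) * X ^ A := by ring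
    rw [e1, Real.mul_rpow (by positivity) (by positivity), ← hκ0, ← Real.rpow_mul hX0'.le, hA2, hT1,
      mul_assoc, ← Real.rpow_add hX0']
    exact mul_le_mul_of_nonneg_left (Real.rpow_le_rpow_of_exponent_le hX (by linarith)) hκ00.le
  have b1 : ∀ j, ((S1 j).card : ℝ) ≤ D1 j * κ0 * X ^ (2 / q - η) := by
    intro j
    have h1 := hD1s j (m * M0) (B * X ^ A) T1 (Nat.one_le_iff_ne_zero.2 hmM) hY1 hT10.le (S1 j) (by
      intro p hp
      rw [hS1] at hp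
      obtain ⟨hp1, hp2⟩ := mem_filter.1 hp
      obtain ⟨⟨a1, -, a3, a4, a5, -, -⟩, -⟩ := hs p hp1
      exact ⟨a1, a3, a4, a5 j, hp2⟩)
    calc ((S1 j).card : ℝ) ≤ D1 j * (((m * M0 : ℕ) : ℝ) * (B * X ^ A)) ^ ε2 * T1 := h1
      _ = D1 j * ((((m * M0 : ℕ) : ℝ) * (B * X ^ A)) ^ ε2 * T1) := by ring
      _ ≤ D1 j * (κ0 * X ^ (2 / q - η)) := mul_le_mul_of_nonneg_left hYe (hD1 j).le
      _ = _ := by ring
  have b2 : ∀ t, ((S2 t).card : ℝ) ≤ D2 t * κ0 * X ^ (2 / q - η) := by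
    intro t
    by_cases ht : t.1 ≠ t.2
    · have h1 := hD2s t ht (m * M0) (B * X ^ A) T1 (Nat.one_le_iff_ne_zero.2 hmM) hY1 hT10.le
        (S2 t) (by
        intro p hp
        rw [hS2] at hp
        obtain ⟨hp1, -, hp2⟩ := mem_filter.1 hp
        obtain ⟨⟨a1, -, a3, a4, -, a6, -⟩, -⟩ := hs p hp1
        refine ⟨a1, a3, a4, ?_, hp2⟩
        have := Pool.Agent.W505.VC.t_HOM.1 (h t.1) (h t.2) 1 1 (hF.hh _) (hF.hh _) p.1 p.2
        rw [show (2 : ℕ) = 1 + 1 from rfl, this]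
        exact mul_ne_zero (a6 _) (a6 _))
      calc ((S2 t).card : ℝ) ≤ D2 t * (((m * M0 : ℕ) : ℝ) * (B * X ^ A)) ^ ε2 * T1 := h1
        _ = D2 t * ((((m * M0 : ℕ) : ℝ) * (B * X ^ A)) ^ ε2 * T1) := by ring
        _ ≤ D2 t * (κ0 * X ^ (2 / q - η)) := mul_le_mul_of_nonneg_left hYe (hD2 t).le
        _ = _ := by ring
    · have : S2 t = ∅ := by
        rw [hS2]
        exact Finset.filter_eq_empty_iff.2 fun p _ hp => ht hp.1
      rw [this, Finset.card_empty, Nat.cast_zero]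
      have := (hD2 t).le
      positivity
  have b3 : ∀ i, ((S3 i).card : ℝ) ≤ D3 i * X ^ (2 / q - η) := by
    intro i
    have hU : 1 ≤ X ^ (1 / q - δ0) := by
      refine Real.one_le_rpow hX ?_
      have : 1 / (2 * q) = 1 / q / 2 := by field_simp
      rw [this] at hδ0q
      linarith
    have hV : 1 ≤ X ^ (1 / q + δ') := Real.one_le_rpow hX hsum.le
    have h1 := hD3s i (X ^ (1 / q - δ0)) (X ^ (1 / q + δ')) hU hV (S3 i) (by
      intro p hp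
      rw [hS3] at hp
      obtain ⟨-, hp1, hp2⟩ := mem_filter.1 hp
      exact ⟨(le_max_left _ _).trans hp1, (le_max_right _ _).trans hp1, hp2⟩)
    refine h1.trans (mul_le_mul_of_nonneg_left ?_ (hD3 i).le)
    rw [← Real.rpow_add hX0']
    refine Real.rpow_le_rpow_of_exponent_le hX ?_
    have : 2 / q = 1 / q + 1 / q := by ring
    rw [hδ'e]
    linarith
  have b4 : (S4.card : ℝ) ≤ C1 * B ^ ((2 : ℝ) / L) * X ^ (2 / q - η) := by
    obtain ⟨Z, hZe⟩ : ∃ Z : ℝ, Z = B * X ^ ((L : ℝ) / q + w * η1) := ⟨_, rfl⟩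
    have hexpZ : 0 ≤ (L : ℝ) / q + w * η1 := by positivity
    have hZ : 1 ≤ Z := by
      rw [hZe]
      have := Real.one_le_rpow hX hexpZ
      nlinarith
    have hZ0 : 0 < Z := by linarith
    have h1 := hbig Z hZ S4 (by
      intro p hp
      rw [hS4] at hp
      obtain ⟨hp1, hp2, hp3⟩ := mem_filter.1 hp
      obtain ⟨⟨a1, a2, a3, a4, a5, a6, a7⟩, -⟩ := hs p hp1
      have hR := hrad m p.1 p.2 a1 a5 a6
      have hR' : ((∏ j, radp (m * M0) (hom (g j) 2 p.1 p.2).natAbs : ℕ) : ℝ) *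
          ((∏ i, radp (m * M0) (hom (h i) 1 p.1 p.2).natAbs : ℕ) : ℝ) ≤ B * X := by
        refine le_trans ?_ a7
        exact_mod_cast hR
      have hTw : T1 ^ w ≤ ((∏ j, radp (m * M0) (hom (g j) 2 p.1 p.2).natAbs : ℕ) : ℝ) := by
        push_cast
        calc T1 ^ w = ∏ _j : Fin w, T1 := by simp
          _ ≤ _ := Finset.prod_le_prod (fun _ _ => hT10.le) fun j _ => (hp2 j).le
      have hPpos : (0 : ℝ) < ((∏ i, radp (m * M0) (hom (h i) 1 p.1 p.2).natAbs : ℕ) : ℝ) := by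
        exact_mod_cast Finset.prod_pos fun i _ => radp_pos _ _
      have hPZ : ((∏ i, radp (m * M0) (hom (h i) 1 p.1 p.2).natAbs : ℕ) : ℝ) ≤ Z := by
        have e1 : T1 ^ w * ((∏ i, radp (m * M0) (hom (h i) 1 p.1 p.2).natAbs : ℕ) : ℝ) ≤ B * X :=
          le_trans (mul_le_mul_of_nonneg_right hTw hPpos.le) hR'
        have e2 : T1 ^ w * Z = B * X := by
          rw [hT1, hZe, ← Real.rpow_natCast, ← Real.rpow_mul hX0'.le]
          have : X ^ ((2 / q - η1) * (w : ℝ)) * (B * X ^ ((L : ℝ) / q + w * η1)) =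
              B * (X ^ ((2 / q - η1) * (w : ℝ)) * X ^ ((L : ℝ) / q + w * η1)) := by ring
          rw [this, ← Real.rpow_add hX0']
          have e3 : (2 / q - η1) * (w : ℝ) + ((L : ℝ) / q + w * η1) = 1 := by
            have : (2 / q - η1) * (w : ℝ) + ((L : ℝ) / q + w * η1) = (2 * w + L) / q := by ring
            rw [this, ← hq, div_self hq0.ne']
          rw [e3, Real.rpow_one]
        have e4 : 0 < T1 ^ w := by positivity
        rw [← e2] at e1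
        exact le_of_mul_le_mul_left e1 e4
      refine ⟨a1, a2, a6, hPZ, ?_⟩
      have hlX : 0 ≤ Real.log X := Real.log_nonneg hX
      have hBX : Real.log B ≤ (L * δ' / 4) * Real.log X := by
        have h2 : Real.log X0 ≤ Real.log X := Real.log_le_log (by linarith) hlarge
        rw [hX0e, Real.log_rpow (by linarith)] at h2
        have h3 : 0 < (L : ℝ) * δ' / 4 := by positivity
        calc Real.log B = (L * δ' / 4) * (4 / (L * δ') * Real.log B) := by field_simp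
          _ ≤ _ := mul_le_mul_of_nonneg_left h2 h3.le
      have hmaxpos : 0 < max |(p.1 : ℝ)| |(p.2 : ℝ)| := lt_trans (by positivity) hp3
      have hlm : (1 / q + δ') * Real.log X <
          Real.log ((max p.1.natAbs p.2.natAbs : ℕ) : ℝ) := by
        rw [max_cast, ← Real.log_rpow hX0']
        exact Real.log_lt_log (by positivity) hp3
      calc Real.log ((∏ i, radp (m * M0) (hom (h i) 1 p.1 p.2).natAbs : ℕ) : ℝ)
          ≤ Real.log Z := Real.log_le_log hPpos hPZ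
        _ = Real.log B + ((L : ℝ) / q + w * η1) * Real.log X := by
            rw [hZe, Real.log_mul (by linarith) (by positivity), Real.log_rpow hX0']
        _ ≤ (L * δ' / 4) * Real.log X + ((L : ℝ) / q + w * η1) * Real.log X := by linarith
        _ = (L * δ' / 4 + L / q + w * η1) * Real.log X := by ring
        _ ≤ (L / q + L * δ' / 2) * Real.log X :=
            mul_le_mul_of_nonneg_right (by linarith) hlX
        _ = ((L : ℝ) - ε) * ((1 / q + δ') * Real.log X) := by rw [← hprodε]; ring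
        _ < ((L : ℝ) - ε) * Real.log ((max p.1.natAbs p.2.natAbs : ℕ) : ℝ) :=
            mul_lt_mul_of_pos_left hlm hLε)
    refine h1.trans ?_
    have hL0 : (0 : ℝ) < L := by linarith
    rcases le_or_gt ((2 : ℝ) / L - ν) 0 with hneg | hpos
    · -- then the bound is trivial
      have e1 : Z ^ ((2 : ℝ) / L - ν) ≤ 1 := Real.rpow_le_one_of_one_le_of_nonpos hZ hneg
      have e2 : 1 ≤ B ^ ((2 : ℝ) / L) := Real.one_le_rpow hB (by positivity)
      calc C1 * Z ^ ((2 : ℝ) / L - ν) ≤ C1 * 1 := mul_le_mul_of_nonneg_left e1 hC1.le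
        _ ≤ C1 * (B ^ ((2 : ℝ) / L) * X ^ (2 / q - η)) := by
            refine mul_le_mul_of_nonneg_left ?_ hC1.le
            nlinarith
        _ = _ := by ring
    · rw [hZe, Real.mul_rpow (by linarith) (by positivity), ← Real.rpow_mul hX0'.le]
      have e1 : B ^ ((2 : ℝ) / L - ν) ≤ B ^ ((2 : ℝ) / L) :=
        Real.rpow_le_rpow_of_exponent_le hB (by linarith)
      have e2 : X ^ (((L : ℝ) / q + w * η1) * ((2 : ℝ) / L - ν)) ≤ X ^ (2 / q - η) := by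
        refine Real.rpow_le_rpow_of_exponent_le hX ?_
        have : ((L : ℝ) / q + w * η1) * ((2 : ℝ) / L - ν) =
            2 / q + 2 * w * η1 / L - ν * L / q - ν * (w * η1) := by
          field_simp
          ring
        rw [this]
        have h5 : 0 ≤ ν * (w * η1) := by positivity
        have h6 : ν * L / q = ν * L / (2 * q) + ν * L / (2 * q) := by field_simp; ring
        linarith
      calc C1 * (B ^ ((2 : ℝ) / L - ν) * X ^ (((L : ℝ) / q + w * η1) * ((2 : ℝ) / L - ν))) ≤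
            C1 * (B ^ ((2 : ℝ) / L) * X ^ (2 / q - η)) := by
            refine mul_le_mul_of_nonneg_left ?_ hC1.le
            exact mul_le_mul e1 e2 (by positivity) (by positivity)
        _ = _ := by ring
  -- the sum
  have hc1 : ((univ.biUnion S1).card : ℝ) ≤ (∑ j, D1 j) * κ0 * X ^ (2 / q - η) := by
    calc ((univ.biUnion S1).card : ℝ) ≤ ∑ j, ((S1 j).card : ℝ) := by exact_mod_cast card_biUnion_le
      _ ≤ ∑ j, D1 j * κ0 * X ^ (2 / q - η) := Finset.sum_le_sum fun j _ => b1 j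
      _ = _ := by rw [← Finset.sum_mul, ← Finset.sum_mul]
  have hc2 : ((univ.biUnion S2).card : ℝ) ≤ (∑ t, D2 t) * κ0 * X ^ (2 / q - η) := by
    calc ((univ.biUnion S2).card : ℝ) ≤ ∑ j, ((S2 j).card : ℝ) := by exact_mod_cast card_biUnion_le
      _ ≤ ∑ j, D2 j * κ0 * X ^ (2 / q - η) := Finset.sum_le_sum fun j _ => b2 j
      _ = _ := by rw [← Finset.sum_mul, ← Finset.sum_mul]
  have hc3 : ((univ.biUnion S3).card : ℝ) ≤ (∑ i, D3 i) * X ^ (2 / q - η) := by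
    calc ((univ.biUnion S3).card : ℝ) ≤ ∑ j, ((S3 j).card : ℝ) := by exact_mod_cast card_biUnion_le
      _ ≤ ∑ j, D3 j * X ^ (2 / q - η) := Finset.sum_le_sum fun j _ => b3 j
      _ = _ := by rw [← Finset.sum_mul]
  have htot : (s.card : ℝ) ≤ ((univ.biUnion S1).card : ℝ) + ((univ.biUnion S2).card : ℝ) +
      ((univ.biUnion S3).card : ℝ) + (S4.card : ℝ) := by
    have h1 := card_le_card hcover
    have h2 := card_union_le (univ.biUnion S1 ∪ univ.biUnion S2 ∪ univ.biUnion S3) S4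
    have h3 := card_union_le (univ.biUnion S1 ∪ univ.biUnion S2) (univ.biUnion S3)
    have h4 := card_union_le (univ.biUnion S1) (univ.biUnion S2)
    exact_mod_cast (by omega : s.card ≤ (univ.biUnion S1).card + (univ.biUnion S2).card +
      (univ.biUnion S3).card + S4.card)
  have hP0 : 0 < X ^ (2 / q - η) := by positivity
  calc (s.card : ℝ) ≤ (∑ j, D1 j) * κ0 * X ^ (2 / q - η) + (∑ t, D2 t) * κ0 * X ^ (2 / q - η) +
        (∑ i, D3 i) * X ^ (2 / q - η) + C1 * B ^ ((2 : ℝ) / L) * X ^ (2 / q - η) := by linarith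
    _ = ((∑ j, D1 j) * κ0 + (∑ t, D2 t) * κ0 + (∑ i, D3 i) + C1 * B ^ ((2 : ℝ) / L)) *
        X ^ (2 / q - η) := by ring
    _ ≤ Ct * X ^ (2 / q - η) := by
        refine mul_le_mul_of_nonneg_right ?_ hP0.le
        rw [hCt]
        have : 0 ≤ 9 * (B * X0 ^ A) ^ 2 := by positivity
        linarith

end Pool.Agent.T2h19.SZ
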