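import Pool.Agent.TH498.KB.Tors
import Pool.Agent.T2h19.SZ.P1

/-!
# The parameters of the semistable members of a one-parameter family
-/

set_option autoImplicit false

namespace Pool.Agent.T2h19.SZ

open Finset Polynomial Pool.Agent.W4.CF Pool.Agent.W4.VC Pool.Agent.TH498.KB

/-- the data of a family with multiplicative fibres only, with all factors of the discriminant -/
structure FamE {ι : Type} [Fintype ι] (A B : ℤ[X]) (k : ℕ) (F : ι → ℤ[X]) (n e : ι → ℕ)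
    (c : ℤ) : Prop where
  hk : 1 ≤ k
  hA : A.natDegree ≤ 4 * k
  hB : B.natDegree ≤ 6 * k
  hlead : A.natDegree = 4 * k ∨ B.natDegree = 6 * k
  hcop : IsCoprime (A.map (Int.castRingHom ℚ)) (B.map (Int.castRingHom ℚ))
  hn : ∀ i, (F i).natDegree ≤ n i
  hsq : Sqf (∏ i, F i) (∑ i, n i)
  hc : c ≠ 0
  he : ∀ i, 1 ≤ e i
  hD : 4 * A ^ 3 - 27 * B ^ 2 = C c * ∏ i, F i ^ e i
  hsum : ∑ i, n i * e i = 12 * k

/-- the value of the discriminant -/
def DV {ι : Type} [Fintype ι] (F : ι → ℤ[X]) (n e : ι → ℕ) (c : ℤ) (p : ℤ × ℤ) : ℤ :=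
  c * ∏ i, hom (F i) (n i) p.1 p.2 ^ e i

theorem disc_val {ι : Type} [Fintype ι] {A B : ℤ[X]} {k : ℕ} {F : ι → ℤ[X]} {n e : ι → ℕ}
    {c : ℤ} (hF : FamE A B k F n e c) (x y : ℤ) (hy : y ≠ 0) :
    4 * hom A (4 * k) x y ^ 3 - 27 * hom B (6 * k) x y ^ 2 = DV F n e c (x, y) := by
  have hyQ : (y : ℚ) ≠ 0 := by exact_mod_cast hy
  have hAe := hom_eval A (4 * k) hF.hA x y hyQ
  have hBe := hom_eval B (6 * k) hF.hB x y hyQ
  have hFe := fun i => hom_eval (F i) (n i) (hF.hn i) x y hyQ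
  have hmap := congrArg (fun f : ℤ[X] => (f.map (Int.castRingHom ℚ)).eval ((x : ℚ) / (y : ℚ)))
    hF.hD
  simp only [Polynomial.map_mul, Polynomial.map_sub, Polynomial.map_pow, eval_mul, eval_sub,
    eval_pow, Polynomial.map_prod, eval_prod, map_C, eval_C] at hmap
  have h4 : ((4 : ℤ[X]).map (Int.castRingHom ℚ)) = Polynomial.C 4 := by
    rw [Polynomial.map_ofNat]; rfl
  have h27 : ((27 : ℤ[X]).map (Int.castRingHom ℚ)) = Polynomial.C 27 := by
    rw [Polynomial.map_ofNat]; rfl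
  rw [h4, h27, eval_C, eval_C, eq_intCast] at hmap
  have key : ((4 * hom A (4 * k) x y ^ 3 - 27 * hom B (6 * k) x y ^ 2 : ℤ) : ℚ) =
      ((DV F n e c (x, y) : ℤ) : ℚ) := by
    unfold DV
    push_cast
    rw [hAe, hBe]
    simp only [hFe]
    have e1 : ∏ i, ((y : ℚ) ^ n i * eval ((x : ℚ) / y) ((F i).map (Int.castRingHom ℚ))) ^ e i =
        (y : ℚ) ^ (12 * k) * ∏ i, eval ((x : ℚ) / y) ((F i).map (Int.castRingHom ℚ)) ^ e i := by
      rw [← hF.hsum, ← Finset.prod_pow_eq_pow_sum, ← Finset.prod_mul_distrib]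
      refine Finset.prod_congr rfl fun i _ => ?_
      rw [mul_pow, ← pow_mul]
    rw [e1]
    calc 4 * ((y : ℚ) ^ (4 * k) * eval ((x : ℚ) / y) (A.map (Int.castRingHom ℚ))) ^ 3 -
          27 * ((y : ℚ) ^ (6 * k) * eval ((x : ℚ) / y) (B.map (Int.castRingHom ℚ))) ^ 2
        = (y : ℚ) ^ (12 * k) * (4 * eval ((x : ℚ) / y) (A.map (Int.castRingHom ℚ)) ^ 3 -
          27 * eval ((x : ℚ) / y) (B.map (Int.castRingHom ℚ)) ^ 2) := by
          rw [mul_pow, mul_pow, ← pow_mul, ← pow_mul]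
          have h1 : 4 * k * 3 = 12 * k := by ring
          have h2 : 6 * k * 2 = 12 * k := by ring
          rw [h1, h2]
          ring
      _ = _ := by
          rw [hmap]
          ring
  exact_mod_cast key

/-- the product of the primes dividing the discriminant -/
def cond (W : WeierstrassCurve ℤ) : ℕ := ∏ p ∈ W.Δ.natAbs.primeFactors, p

/-- what is known about the parameter `p` of the curve `W` -/
structure Par {ι : Type} [Fintype ι] (k : ℕ) (F : ι → ℤ[X]) (n e : ι → ℕ) (c : ℤ) (M : ℕ) (K : ℝ)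
    (W : WeierstrassCurve ℤ) (p : ℤ × ℤ) : Prop where
  cop : IsCoprime p.1 p.2
  pos : 0 < p.2
  ne : ∀ i, hom (F i) (n i) p.1 p.2 ≠ 0
  rad : radp (6 * M) (hom (∏ i, F i) (∑ i, n i) p.1 p.2).natAbs ≤ cond W
  up : |(W.Δ : ℝ)| ≤ K * |((DV F n e c p : ℤ) : ℝ)|
  lo : |((DV F n e c p : ℤ) : ℝ)| ≤ K * |(W.Δ : ℝ)|
  ht : max (|(W.c₄ : ℝ)| ^ 3) ((W.c₆ : ℝ) ^ 2) ≤ K * (max |(p.1 : ℝ)| |(p.2 : ℝ)|) ^ (12 * k)

/-- from curves to parameters -/
theorem transfer {ι : Type} [Fintype ι] {A B : ℤ[X]} {k : ℕ} {F : ι → ℤ[X]}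
    {n e : ι → ℕ} {c : ℤ} (hF : FamE A B k F n e c) :
    ∃ M : ℕ, 1 ≤ M ∧ ∃ K : ℝ, 1 ≤ K ∧ ∀ (S : Finset (ℤ × ℤ)) (Q : ℤ × ℤ → Prop),
      (∀ q ∈ S, ∃ W : WeierstrassCurve ℤ, W.Δ ≠ 0 ∧ IsCoprime W.c₄ W.Δ ∧
        Mem A B (27 * W.c₄) (54 * W.c₆) ∧ q = (W.c₄, W.c₆) ∧
        ∀ p : ℤ × ℤ, Par k F n e c M K W p → Q p) →
      ∃ s : Finset (ℤ × ℤ), (∀ p ∈ s, Q p) ∧ S.card ≤ 13 * M * s.card := by
  classical
  obtain ⟨M, K0, hM, -, hbez⟩ := bez2 A B k hF.hk hF.hA hF.hB hF.hlead hF.hcop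
  have hM1 : (1 : ℝ) ≤ M := by exact_mod_cast hM
  obtain ⟨DA, hDA, hA1⟩ := Pool.Agent.W505.VC.t_HOM.2.1 A (4 * k)
  obtain ⟨DB, hDB, hB1⟩ := Pool.Agent.W505.VC.t_HOM.2.1 B (6 * k)
  refine ⟨M, hM, (6 : ℝ) ^ 12 + 136048896 * (M : ℝ) ^ 12 + (6 ^ 4 * DA) ^ 3 + (6 ^ 6 * DB) ^ 2,
    ?_, ?_⟩
  · have : (1 : ℝ) ≤ (M : ℝ) ^ 12 := one_le_pow₀ hM1
    have h1 : 0 ≤ (6 ^ 4 * DA) ^ 3 := by positivity
    have h2 : 0 ≤ (6 ^ 6 * DB) ^ 2 := by positivity
    nlinarith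
  intro S Q hS
  have hM12 : (1 : ℝ) ≤ (M : ℝ) ^ 12 := one_le_pow₀ hM1
  have hex : ∀ q ∈ S, ∃ (p : ℤ × ℤ) (r : ℤ) (e0 : ℕ), Q p ∧ 1 ≤ e0 ∧ e0 ≤ M ∧ |r| ≤ 6 ∧
      27 * q.1 * (e0 : ℤ) ^ 4 = r ^ 4 * hom A (4 * k) p.1 p.2 ∧
      54 * q.2 * (e0 : ℤ) ^ 6 = r ^ 6 * hom B (6 * k) p.1 p.2 := by
    intro q hq
    obtain ⟨W, hΔ, hco, ⟨t, u, hu, ha, hb⟩, rfl, hQ⟩ := hS q hq
    have hden : ((t.den : ℤ) : ℚ) ≠ 0 := by exact_mod_cast t.den_nz
    have hA' := hom_eval A (4 * k) hF.hA t.num t.den hden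
    have hB' := hom_eval B (6 * k) hF.hB t.num t.den hden
    have ht : ((t.num : ℤ) : ℚ) / ((t.den : ℤ) : ℚ) = t := by
      push_cast
      exact Rat.num_div_den t
    rw [ht] at hA' hB'
    set v : ℚ := u / (t.den : ℚ) ^ k with hv
    have hdk : (t.den : ℚ) ^ k ≠ 0 := pow_ne_zero _ (by exact_mod_cast t.den_nz)
    have ha2 : ((27 * W.c₄ : ℤ) : ℚ) = v ^ 4 * ((hom A (4 * k) t.num t.den : ℤ) : ℚ) := by
      rw [hA', ha, hv, div_pow, ← pow_mul, mul_comm k 4]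
      have : (t.den : ℚ) ^ (4 * k) ≠ 0 := pow_ne_zero _ (by exact_mod_cast t.den_nz)
      push_cast
      field_simp
    have hb2 : ((54 * W.c₆ : ℤ) : ℚ) = v ^ 6 * ((hom B (6 * k) t.num t.den : ℤ) : ℚ) := by
      rw [hB', hb, hv, div_pow, ← pow_mul, mul_comm k 6]
      have : (t.den : ℚ) ^ (6 * k) ≠ 0 := pow_ne_zero _ (by exact_mod_cast t.den_nz)
      push_cast
      field_simp
    have hv0 : v ≠ 0 := div_ne_zero hu hdk
    have hvd : (v.den : ℚ) ≠ 0 := by exact_mod_cast v.den_nz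
    have ha3 : 27 * W.c₄ * (v.den : ℤ) ^ 4 = v.num ^ 4 * hom A (4 * k) t.num t.den := by
      have : ((27 * W.c₄ * (v.den : ℤ) ^ 4 : ℤ) : ℚ) =
          ((v.num ^ 4 * hom A (4 * k) t.num t.den : ℤ) : ℚ) := by
        rw [Int.cast_mul, ha2]
        push_cast
        nth_rewrite 1 [← Rat.num_div_den v]
        field_simp
      exact_mod_cast this
    have hb3 : 54 * W.c₆ * (v.den : ℤ) ^ 6 = v.num ^ 6 * hom B (6 * k) t.num t.den := by
      have : ((54 * W.c₆ * (v.den : ℤ) ^ 6 : ℤ) : ℚ) =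
          ((v.num ^ 6 * hom B (6 * k) t.num t.den : ℤ) : ℚ) := by
        rw [Int.cast_mul, hb2]
        push_cast
        nth_rewrite 1 [← Rat.num_div_den v]
        field_simp
      exact_mod_cast this
    have hcv : IsCoprime v.num (v.den : ℤ) := by
      rw [Int.isCoprime_iff_gcd_eq_one]
      exact v.reduced
    have hct : IsCoprime t.num (t.den : ℤ) := by
      rw [Int.isCoprime_iff_gcd_eq_one]
      exact t.reduced
    have d1 : (v.den : ℤ) ^ 4 ∣ hom A (4 * k) t.num t.den :=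
      (IsCoprime.pow hcv.symm).dvd_of_dvd_mul_left (ha3 ▸ Dvd.intro_left _ rfl)
    have d2 : (v.den : ℤ) ^ 6 ∣ hom B (6 * k) t.num t.den :=
      (IsCoprime.pow hcv.symm).dvd_of_dvd_mul_left (hb3 ▸ Dvd.intro_left _ rfl)
    have d3 : (v.den : ℤ) ∣ M := by
      refine (hbez _ _ hct).1 _ ?_ ?_
      · exact (dvd_pow_self _ (by norm_num)).trans d1
      · exact (dvd_pow_self _ (by norm_num)).trans d2
    have hvM : v.den ≤ M := Nat.le_of_dvd (by omega) (by exact_mod_cast d3)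
    have d4 : v.num ^ 4 ∣ 27 * W.c₄ :=
      (IsCoprime.pow hcv).dvd_of_dvd_mul_right (by rw [ha3]; exact Dvd.intro _ rfl)
    have d5 : v.num ^ 6 ∣ 54 * W.c₆ :=
      (IsCoprime.pow hcv).dvd_of_dvd_mul_right (by rw [hb3]; exact Dvd.intro _ rfl)
    have hr6 : |v.num| ≤ 6 := by
      have := prim_of_coprime W hco v.num d4 d5
      exact_mod_cast this
    have hvn : v.num ≠ 0 := Rat.num_ne_zero.mpr hv0
    have hdz : (t.den : ℤ) ≠ 0 := by exact_mod_cast t.den_nz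
    have hdisc : 136048896 * W.Δ * (v.den : ℤ) ^ 12 =
        v.num ^ 12 * DV F n e c (t.num, (t.den : ℤ)) := by
      rw [← disc_val hF t.num t.den hdz]
      have h1 : (4 * (27 * W.c₄) ^ 3 - 27 * (54 * W.c₆) ^ 2 : ℤ) = 136048896 * W.Δ := by
        have := W.c_relation
        linear_combination (-78732) * this
      rw [← h1]
      calc (4 * (27 * W.c₄) ^ 3 - 27 * (54 * W.c₆) ^ 2) * (v.den : ℤ) ^ 12 =
            4 * (27 * W.c₄ * (v.den : ℤ) ^ 4) ^ 3 - 27 * (54 * W.c₆ * (v.den : ℤ) ^ 6) ^ 2 := by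
              ring
        _ = _ := by rw [ha3, hb3]; ring
    have hdiscR : 136048896 * |(W.Δ : ℝ)| * (v.den : ℝ) ^ 12 =
        |(v.num : ℝ)| ^ 12 * |((DV F n e c (t.num, (t.den : ℤ)) : ℤ) : ℝ)| := by
      have h1 : ((136048896 * W.Δ * (v.den : ℤ) ^ 12 : ℤ) : ℝ) =
          ((v.num ^ 12 * DV F n e c (t.num, (t.den : ℤ)) : ℤ) : ℝ) := by rw [hdisc]
      have h2 := congrArg abs h1
      push_cast at h2
      rw [abs_mul, abs_mul, abs_mul, abs_pow, abs_pow, Nat.abs_cast] at h2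
      rw [abs_of_pos (by norm_num : (0 : ℝ) < 136048896)] at h2
      exact h2
    have hvd1 : (1 : ℝ) ≤ (v.den : ℝ) ^ 12 := one_le_pow₀ (by exact_mod_cast v.den_pos)
    have hvd2 : (v.den : ℝ) ^ 12 ≤ (M : ℝ) ^ 12 :=
      pow_le_pow_left₀ (Nat.cast_nonneg _) (by exact_mod_cast hvM) 12
    have hvn1 : (1 : ℝ) ≤ |(v.num : ℝ)| ^ 12 := one_le_pow₀ (by exact_mod_cast Int.one_le_abs hvn)
    have hvn2 : |(v.num : ℝ)| ^ 12 ≤ 6 ^ 12 :=
      pow_le_pow_left₀ (abs_nonneg _) (by exact_mod_cast hr6) 12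
    have hA30 : 0 ≤ (6 ^ 4 * DA) ^ 3 := by positivity
    have hB20 : 0 ≤ (6 ^ 6 * DB) ^ 2 := by positivity
    refine ⟨(t.num, (t.den : ℤ)), v.num, v.den, hQ _ ⟨hct, ?_, ?_, ?_, ?_, ?_, ?_⟩, v.den_pos, hvM,
      hr6, ha3, hb3⟩
    · change 0 < (t.den : ℤ)
      exact_mod_cast t.den_pos
    · intro i h0
      have h1 : DV F n e c (t.num, (t.den : ℤ)) = 0 := by
        unfold DV
        rw [Finset.prod_eq_zero (mem_univ i) (by
          rw [h0]
          exact zero_pow (by have := hF.he i; omega)), mul_zero]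
      rw [h1, mul_zero] at hdisc
      have h2 : (v.den : ℤ) ^ 12 ≠ 0 := pow_ne_zero _ (by exact_mod_cast v.den_nz)
      rcases mul_eq_zero.1 hdisc with h3 | h3
      · rcases mul_eq_zero.1 h3 with h4 | h4
        · norm_num at h4
        · exact hΔ h4
      · exact h2 h3
    · -- the radical
      have hle : (∏ i, F i).natDegree ≤ ∑ i, n i :=
        (natDegree_prod_le _ _).trans (Finset.sum_le_sum fun i _ => hF.hn i)
      have hprod : hom (∏ i, F i) (∑ i, n i) t.num t.den =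
          ∏ i, hom (F i) (n i) t.num t.den := by
        classical
        exact (hom_prod univ F n (fun i _ => hF.hn i) t.num t.den).2
      unfold radp cond
      refine Finset.prod_le_prod_of_subset_of_one_le' ?_ fun i hi _ =>
        (Nat.prime_of_mem_primeFactors hi).one_le
      intro l hl
      obtain ⟨hl1, hl2⟩ := mem_filter.mp hl
      have hlp := Nat.prime_of_mem_primeFactors hl1
      have hlZ : Prime (l : ℤ) := Nat.prime_iff_prime_int.mp hlp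
      have hld : (l : ℤ) ∣ ∏ i, hom (F i) (n i) t.num t.den := by
        rw [← hprod, Int.natCast_dvd]
        exact Nat.dvd_of_mem_primeFactors hl1
      obtain ⟨i, -, hi⟩ := (Prime.dvd_finsetProd_iff hlZ _).1 hld
      have hlD : (l : ℤ) ∣ DV F n e c (t.num, (t.den : ℤ)) := by
        unfold DV
        refine Dvd.dvd.mul_left ?_ _
        refine dvd_trans ?_ (Finset.dvd_prod_of_mem _ (mem_univ i))
        exact dvd_pow hi (by have := hF.he i; omega)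
      have hlM : ¬ (l : ℤ) ∣ (M : ℤ) := by
        intro h1
        exact hl2 (Dvd.dvd.mul_left (by exact_mod_cast h1) 6)
      have h5 : ¬ (l : ℤ) ∣ 136048896 := by
        intro h1
        have h2 : l ∣ 136048896 := by exact_mod_cast h1
        have h3 : l ∣ 6 ^ 12 := h2.trans ⟨16, by norm_num⟩
        exact hl2 (Dvd.dvd.mul_right (hlp.dvd_of_dvd_pow h3) M)
      have hle' : ¬ (l : ℤ) ∣ (v.den : ℤ) := fun h1 => hlM (h1.trans d3)
      have h6 : (l : ℤ) ∣ 136048896 * W.Δ * (v.den : ℤ) ^ 12 := by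
        rw [hdisc]
        exact Dvd.dvd.mul_left hlD _
      rw [Nat.mem_primeFactors]
      refine ⟨hlp, ?_, Int.natAbs_ne_zero.mpr hΔ⟩
      rcases hlZ.dvd_or_dvd h6 with h7 | h7
      · rcases hlZ.dvd_or_dvd h7 with h8 | h8
        · exact absurd h8 h5
        · exact Int.natCast_dvd.mp h8
      · exact absurd (hlZ.dvd_of_dvd_pow h7) hle'
    · -- the discriminant of the curve
      have hab := abs_nonneg ((DV F n e c (t.num, (t.den : ℤ)) : ℤ) : ℝ)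
      have h1 : |(W.Δ : ℝ)| ≤ 136048896 * |(W.Δ : ℝ)| * (v.den : ℝ) ^ 12 := by
        have := abs_nonneg (W.Δ : ℝ)
        nlinarith
      rw [hdiscR] at h1
      refine h1.trans (mul_le_mul_of_nonneg_right ?_ hab)
      linarith [show (0 : ℝ) ≤ 136048896 * (M : ℝ) ^ 12 by positivity]
    · have hab := abs_nonneg (W.Δ : ℝ)
      have hab2 := abs_nonneg ((DV F n e c (t.num, (t.den : ℤ)) : ℤ) : ℝ)
      have h1 : |((DV F n e c (t.num, (t.den : ℤ)) : ℤ) : ℝ)| ≤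
          |(v.num : ℝ)| ^ 12 * |((DV F n e c (t.num, (t.den : ℤ)) : ℤ) : ℝ)| :=
        le_mul_of_one_le_left hab2 hvn1
      rw [← hdiscR] at h1
      refine h1.trans ?_
      have h2 : 136048896 * |(W.Δ : ℝ)| * (v.den : ℝ) ^ 12 ≤
          136048896 * |(W.Δ : ℝ)| * (M : ℝ) ^ 12 := mul_le_mul_of_nonneg_left hvd2 (by positivity)
      refine h2.trans ?_
      calc 136048896 * |(W.Δ : ℝ)| * (M : ℝ) ^ 12 = (136048896 * (M : ℝ) ^ 12) * |(W.Δ : ℝ)| := by
            ring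
        _ ≤ _ := mul_le_mul_of_nonneg_right (by linarith [show (0 : ℝ) ≤ 6 ^ 12 by positivity]) hab
    · -- the height
      have hm0 : 0 ≤ max |((t.num : ℤ) : ℝ)| |(((t.den : ℕ) : ℤ) : ℝ)| :=
        (abs_nonneg _).trans (le_max_left _ _)
      have hvd4 : (1 : ℝ) ≤ (v.den : ℝ) ^ 4 := one_le_pow₀ (by exact_mod_cast v.den_pos)
      have hvd6 : (1 : ℝ) ≤ (v.den : ℝ) ^ 6 := one_le_pow₀ (by exact_mod_cast v.den_pos)
      have hvn4 : |(v.num : ℝ)| ^ 4 ≤ 6 ^ 4 :=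
        pow_le_pow_left₀ (abs_nonneg _) (by exact_mod_cast hr6) 4
      have hvn6 : |(v.num : ℝ)| ^ 6 ≤ 6 ^ 6 :=
        pow_le_pow_left₀ (abs_nonneg _) (by exact_mod_cast hr6) 6
      have c4b : |(W.c₄ : ℝ)| ≤ 6 ^ 4 * DA *
          (max |((t.num : ℤ) : ℝ)| |(((t.den : ℕ) : ℤ) : ℝ)|) ^ (4 * k) := by
        have h1 : ((27 * W.c₄ * (v.den : ℤ) ^ 4 : ℤ) : ℝ) =
          ((v.num ^ 4 * hom A (4 * k) t.num t.den : ℤ) : ℝ) := by rw [ha3]
        have h2 := congrArg abs h1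
        push_cast at h2
        rw [abs_mul, abs_mul, abs_mul, abs_pow, abs_pow, Nat.abs_cast,
          abs_of_pos (by norm_num : (0 : ℝ) < 27)] at h2
        have h3 := hA1 t.num t.den
        have h4 := abs_nonneg (W.c₄ : ℝ)
        calc |(W.c₄ : ℝ)| ≤ 27 * |(W.c₄ : ℝ)| * (v.den : ℝ) ^ 4 := by nlinarith
          _ = |(v.num : ℝ)| ^ 4 * |((hom A (4 * k) t.num t.den : ℤ) : ℝ)| := h2
          _ ≤ 6 ^ 4 * (DA * (max |((t.num : ℤ) : ℝ)| |(((t.den : ℕ) : ℤ) : ℝ)|) ^ (4 * k)) :=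
              mul_le_mul hvn4 h3 (abs_nonneg _) (by positivity)
          _ = _ := by ring
      have c6b : |(W.c₆ : ℝ)| ≤ 6 ^ 6 * DB *
          (max |((t.num : ℤ) : ℝ)| |(((t.den : ℕ) : ℤ) : ℝ)|) ^ (6 * k) := by
        have h1 : ((54 * W.c₆ * (v.den : ℤ) ^ 6 : ℤ) : ℝ) =
          ((v.num ^ 6 * hom B (6 * k) t.num t.den : ℤ) : ℝ) := by rw [hb3]
        have h2 := congrArg abs h1
        push_cast at h2
        rw [abs_mul, abs_mul, abs_mul, abs_pow, abs_pow, Nat.abs_cast,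
          abs_of_pos (by norm_num : (0 : ℝ) < 54)] at h2
        have h3 := hB1 t.num t.den
        have h4 := abs_nonneg (W.c₆ : ℝ)
        calc |(W.c₆ : ℝ)| ≤ 54 * |(W.c₆ : ℝ)| * (v.den : ℝ) ^ 6 := by nlinarith
          _ = |(v.num : ℝ)| ^ 6 * |((hom B (6 * k) t.num t.den : ℤ) : ℝ)| := h2
          _ ≤ 6 ^ 6 * (DB * (max |((t.num : ℤ) : ℝ)| |(((t.den : ℕ) : ℤ) : ℝ)|) ^ (6 * k)) :=
              mul_le_mul hvn6 h3 (abs_nonneg _) (by positivity)
          _ = _ := by ring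
      refine max_le ?_ ?_
      · calc |(W.c₄ : ℝ)| ^ 3 ≤ (6 ^ 4 * DA *
              (max |((t.num : ℤ) : ℝ)| |(((t.den : ℕ) : ℤ) : ℝ)|) ^ (4 * k)) ^ 3 :=
              pow_le_pow_left₀ (abs_nonneg _) c4b 3
          _ = (6 ^ 4 * DA) ^ 3 *
              (max |((t.num : ℤ) : ℝ)| |(((t.den : ℕ) : ℤ) : ℝ)|) ^ (12 * k) := by
              rw [mul_pow, ← pow_mul]
              congr 2
              ring
          _ ≤ _ := by
              refine mul_le_mul_of_nonneg_right ?_ (by positivity)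
              linarith [show (0 : ℝ) ≤ 6 ^ 12 + 136048896 * (M : ℝ) ^ 12 by positivity]
      · calc (W.c₆ : ℝ) ^ 2 = |(W.c₆ : ℝ)| ^ 2 := (sq_abs _).symm
          _ ≤ (6 ^ 6 * DB *
              (max |((t.num : ℤ) : ℝ)| |(((t.den : ℕ) : ℤ) : ℝ)|) ^ (6 * k)) ^ 2 :=
              pow_le_pow_left₀ (abs_nonneg _) c6b 2
          _ = (6 ^ 6 * DB) ^ 2 *
              (max |((t.num : ℤ) : ℝ)| |(((t.den : ℕ) : ℤ) : ℝ)|) ^ (12 * k) := by
              rw [mul_pow, ← pow_mul]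
              congr 2
              ring
          _ ≤ _ := by
              refine mul_le_mul_of_nonneg_right ?_ (by positivity)
              linarith [show (0 : ℝ) ≤ 6 ^ 12 + 136048896 * (M : ℝ) ^ 12 by positivity]
  choose! φ r e0 hQ he1 heM hr6 hea heb using hex
  refine ⟨S.image φ, ?_, ?_⟩
  · intro p hp
    obtain ⟨q, hq, rfl⟩ := mem_image.1 hp
    exact hQ q hq
  have hinj : S.card ≤ ((S.image φ) ×ˢ (Icc (-(6 : ℤ)) 6 ×ˢ Icc 1 M)).card := by
    refine Finset.card_le_card_of_injOn (fun p => (φ p, (r p, e0 p))) ?_ ?_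
    · intro p hp
      have hp' : p ∈ S := hp
      rw [mem_coe, mem_product, mem_product, mem_Icc, mem_Icc]
      exact ⟨mem_image_of_mem _ hp', abs_le.mp (hr6 p hp'), he1 p hp', heM p hp'⟩
    · intro p hp p' hp' heq
      have hp1 : p ∈ S := hp
      have hp2 : p' ∈ S := hp'
      simp only [Prod.mk.injEq] at heq
      obtain ⟨h1, h2, h3⟩ := heq
      have a1 := hea p hp1
      have a2 := hea p' hp2
      have b1 := heb p hp1
      have b2 := heb p' hp2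
      rw [h1, h2, h3, ← a2] at a1
      rw [h1, h2, h3, ← b2] at b1
      have he0 : ((e0 p' : ℕ) : ℤ) ≠ 0 := by
        have := he1 p' hp2
        exact_mod_cast (by omega : e0 p' ≠ 0)
      have a3 := mul_right_cancel₀ (pow_ne_zero _ he0) a1
      have b3 := mul_right_cancel₀ (pow_ne_zero _ he0) b1
      exact Prod.ext (by linarith) (by linarith)
  rw [card_product, card_product, Int.card_Icc, Nat.card_Icc] at hinj
  have h13 : ((6 : ℤ) + 1 - -6).toNat = 13 := rfl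
  rw [h13, Nat.add_sub_cancel] at hinj
  calc S.card ≤ (S.image φ).card * (13 * M) := hinj
    _ = 13 * M * (S.image φ).card := by ring

end Pool.Agent.T2h19.SZ
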