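import Pool.Agent.T2h19.SZ.P2
import Pool.Agent.T2h19.SZ.P3

/-!
# Semistable members of a family with linear and quadratic cusps: upper bounds
-/

set_option autoImplicit false

namespace Pool.Agent.T2h19.SZ

open Finset Polynomial Pool.Agent.W4.CF Pool.Agent.W4.VC Pool.Agent.TH498.KB

section gen

variable {ι : Type} [Fintype ι] {A B : ℤ[X]} {k : ℕ} {F : ι → ℤ[X]} {n e : ι → ℕ} {c : ℤ}

theorem dv_abs (p : ℤ × ℤ) : |((DV F n e c p : ℤ) : ℝ)| =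
    |(c : ℝ)| * ∏ i, |((hom (F i) (n i) p.1 p.2 : ℤ) : ℝ)| ^ e i := by
  unfold DV
  push_cast
  rw [abs_mul, Finset.abs_prod]
  congr 1
  exact Finset.prod_congr rfl fun i _ => abs_pow _ _

theorem FamE.one_le_c (hF : FamE A B k F n e c) : (1 : ℝ) ≤ |(c : ℝ)| := by
  exact_mod_cast Int.one_le_abs hF.hc

theorem FamE.sum_e (hF : FamE A B k F n e c) (hn1 : ∀ i, 1 ≤ n i) :
    (∑ i, (e i : ℝ)) ≤ 12 * k := by
  have h1 : ∑ i, e i ≤ ∑ i, n i * e i := Finset.sum_le_sum fun i _ =>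
    Nat.le_mul_of_pos_left _ (hn1 i)
  rw [hF.hsum] at h1
  exact_mod_cast h1

/-- lower bound for the discriminant -/
theorem dv_lower (hF : FamE A B k F n e c) (hn1 : ∀ i, 1 ≤ n i) {X δ q : ℝ} (hX : 1 ≤ X)
    (hδ : 0 ≤ δ) {p : ℤ × ℤ}
    (hp : ∀ i, X ^ ((n i : ℝ) / q - δ) ≤ |((hom (F i) (n i) p.1 p.2 : ℤ) : ℝ)|) :
    X ^ (12 * k / q - 12 * k * δ) ≤ |((DV F n e c p : ℤ) : ℝ)| := by
  have hX0 : 0 < X := by linarith
  rw [dv_abs]
  have h1 : ∏ i, X ^ (((n i : ℝ) / q - δ) * e i) ≤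
      ∏ i, |((hom (F i) (n i) p.1 p.2 : ℤ) : ℝ)| ^ e i := by
    refine Finset.prod_le_prod (fun i _ => by positivity) fun i _ => ?_
    rw [Real.rpow_mul hX0.le, Real.rpow_natCast]
    exact pow_le_pow_left₀ (by positivity) (hp i) _
  have h2 : ∏ i, X ^ (((n i : ℝ) / q - δ) * e i) = X ^ (∑ i, ((n i : ℝ) / q - δ) * e i) := by
    rw [← Real.rpow_sum_of_pos hX0]
  have h3 : ∑ i, ((n i : ℝ) / q - δ) * e i = 12 * k / q - δ * ∑ i, (e i : ℝ) := by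
    have h4 : ((∑ i, n i * e i : ℕ) : ℝ) = 12 * k := by rw [hF.hsum]; push_cast; ring
    push_cast at h4
    rw [← h4, Finset.sum_div, Finset.mul_sum, ← Finset.sum_sub_distrib]
    refine Finset.sum_congr rfl fun i _ => ?_
    ring
  have h5 : 12 * k / q - 12 * k * δ ≤ ∑ i, ((n i : ℝ) / q - δ) * e i := by
    rw [h3]
    have := mul_le_mul_of_nonneg_left (hF.sum_e hn1) hδ
    linarith
  calc X ^ (12 * k / q - 12 * k * δ) ≤ X ^ (∑ i, ((n i : ℝ) / q - δ) * e i) :=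
        Real.rpow_le_rpow_of_exponent_le hX h5
    _ = ∏ i, X ^ (((n i : ℝ) / q - δ) * e i) := h2.symm
    _ ≤ ∏ i, |((hom (F i) (n i) p.1 p.2 : ℤ) : ℝ)| ^ e i := h1
    _ ≤ |(c : ℝ)| * ∏ i, |((hom (F i) (n i) p.1 p.2 : ℤ) : ℝ)| ^ e i :=
        le_mul_of_one_le_left (Finset.prod_nonneg fun i _ => by positivity) hF.one_le_c

/-- upper bound for the discriminant -/
theorem dv_upper (hF : FamE A B k F n e c) : ∃ K : ℝ, 1 ≤ K ∧ ∀ p : ℤ × ℤ,
    |((DV F n e c p : ℤ) : ℝ)| ≤ K * (max |(p.1 : ℝ)| |(p.2 : ℝ)|) ^ (12 * k) := by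
  have h1 := fun i => Pool.Agent.W505.VC.t_HOM.2.1 (F i) (n i)
  choose D hD hDb using h1
  refine ⟨|(c : ℝ)| * ∏ i, D i ^ e i, ?_, fun p => ?_⟩
  · refine one_le_mul_of_one_le_of_one_le hF.one_le_c ?_
    calc (1 : ℝ) = ∏ _i : ι, (1 : ℝ) := by simp
      _ ≤ ∏ i, D i ^ e i := Finset.prod_le_prod (fun _ _ => zero_le_one) fun i _ =>
          one_le_pow₀ (hD i)
  · rw [dv_abs, mul_assoc]
    refine mul_le_mul_of_nonneg_left ?_ (abs_nonneg _)
    have hm0 : 0 ≤ max |(p.1 : ℝ)| |(p.2 : ℝ)| := (abs_nonneg _).trans (le_max_left _ _)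
    have h2 : (max |(p.1 : ℝ)| |(p.2 : ℝ)|) ^ (12 * k) =
        ∏ i, ((max |(p.1 : ℝ)| |(p.2 : ℝ)|) ^ n i) ^ e i := by
      rw [← hF.hsum, ← Finset.prod_pow_eq_pow_sum]
      exact Finset.prod_congr rfl fun i _ => pow_mul _ _ _
    rw [h2, ← Finset.prod_mul_distrib]
    refine Finset.prod_le_prod (fun i _ => by positivity) fun i _ => ?_
    rw [← mul_pow]
    exact pow_le_pow_left₀ (abs_nonneg _) (hDb i p.1 p.2) _

/-- the parameter is bounded by the discriminant -/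
theorem size_le (hF : FamE A B k F n e c) {i1 i2 : ι} (hne : i1 ≠ i2) (hi1 : n i1 = 1)
    (hi2 : n i2 = 1)
    (hind : (F i1).coeff 1 * (F i2).coeff 0 ≠ (F i2).coeff 1 * (F i1).coeff 0) :
    ∃ K : ℝ, 1 ≤ K ∧ ∀ p : ℤ × ℤ, (∀ i, hom (F i) (n i) p.1 p.2 ≠ 0) →
      |(p.1 : ℝ)| ≤ K * |((DV F n e c p : ℤ) : ℝ)| ∧
      |(p.2 : ℝ)| ≤ K * |((DV F n e c p : ℤ) : ℝ)| := by
  classical
  obtain ⟨K, hK⟩ : ∃ K : ℝ, K = 1 + |((F i1).coeff 0 : ℝ)| + |((F i2).coeff 0 : ℝ)| +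
    |((F i1).coeff 1 : ℝ)| + |((F i2).coeff 1 : ℝ)| := ⟨_, rfl⟩
  have a1 := abs_nonneg ((F i1).coeff 0 : ℝ)
  have a2 := abs_nonneg ((F i2).coeff 0 : ℝ)
  have a3 := abs_nonneg ((F i1).coeff 1 : ℝ)
  have a4 := abs_nonneg ((F i2).coeff 1 : ℝ)
  refine ⟨2 * K, by linarith, fun p hp => ?_⟩
  obtain ⟨l1, hl1⟩ : ∃ l1 : ℤ, l1 = hom (F i1) (n i1) p.1 p.2 := ⟨_, rfl⟩
  obtain ⟨l2, hl2⟩ : ∃ l2 : ℤ, l2 = hom (F i2) (n i2) p.1 p.2 := ⟨_, rfl⟩
  have hl10 : l1 ≠ 0 := by rw [hl1]; exact hp i1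
  have hl20 : l2 ≠ 0 := by rw [hl2]; exact hp i2
  have b1 : (1 : ℝ) ≤ |(l1 : ℝ)| := by exact_mod_cast Int.one_le_abs hl10
  have b2 : (1 : ℝ) ≤ |(l2 : ℝ)| := by exact_mod_cast Int.one_le_abs hl20
  -- the product of the two linear forms
  have hprod : |(l1 : ℝ)| * |(l2 : ℝ)| ≤ |((DV F n e c p : ℤ) : ℝ)| := by
    have h1 : l1.natAbs * l2.natAbs ≤ (DV F n e c p).natAbs := by
      unfold DV
      rw [Int.natAbs_mul]
      have e1 : (∏ i, hom (F i) (n i) p.1 p.2 ^ e i).natAbs =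
          ∏ i, (hom (F i) (n i) p.1 p.2).natAbs ^ e i := by
        have : (∏ i, hom (F i) (n i) p.1 p.2 ^ e i).natAbs =
            ∏ i, (hom (F i) (n i) p.1 p.2 ^ e i).natAbs := map_prod Int.natAbsHom _ _
        rw [this]
        exact Finset.prod_congr rfl fun i _ => Int.natAbs_pow _ _
      rw [e1]
      have hpos : ∀ i, 1 ≤ (hom (F i) (n i) p.1 p.2).natAbs ^ e i := fun i =>
        Nat.one_le_pow _ _ (Int.natAbs_pos.2 (hp i))
      have h2 : ∏ i ∈ ({i1, i2} : Finset ι), (hom (F i) (n i) p.1 p.2).natAbs ^ e i ≤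
          ∏ i, (hom (F i) (n i) p.1 p.2).natAbs ^ e i :=
        Finset.prod_le_prod_of_subset_of_one_le' (subset_univ _) fun i _ _ => hpos i
      rw [prod_pair hne, ← hl1, ← hl2] at h2
      have h3 : l1.natAbs ≤ l1.natAbs ^ e i1 := Nat.le_self_pow (by have := hF.he i1; omega) _
      have h4 : l2.natAbs ≤ l2.natAbs ^ e i2 := Nat.le_self_pow (by have := hF.he i2; omega) _
      have hc1 : 1 ≤ c.natAbs := Int.natAbs_pos.2 hF.hc
      calc l1.natAbs * l2.natAbs ≤ l1.natAbs ^ e i1 * l2.natAbs ^ e i2 := Nat.mul_le_mul h3 h4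
        _ ≤ ∏ i, (hom (F i) (n i) p.1 p.2).natAbs ^ e i := h2
        _ ≤ _ := Nat.le_mul_of_pos_left _ hc1
    have h5 : (((l1.natAbs * l2.natAbs : ℕ)) : ℝ) ≤ (((DV F n e c p).natAbs : ℕ) : ℝ) := by
      exact_mod_cast h1
    push_cast [Nat.cast_natAbs] at h5
    simpa using h5
  have e1 : l1 = p.1 * (F i1).coeff 1 + p.2 * (F i1).coeff 0 := by rw [hl1, hi1, hom_one]
  have e2 : l2 = p.1 * (F i2).coeff 1 + p.2 * (F i2).coeff 0 := by rw [hl2, hi2, hom_one]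
  obtain ⟨d, hd⟩ : ∃ d : ℤ, d = (F i1).coeff 1 * (F i2).coeff 0 - (F i2).coeff 1 * (F i1).coeff 0 :=
    ⟨_, rfl⟩
  have hd0 : d ≠ 0 := by rw [hd]; exact sub_ne_zero.2 hind
  have hd1 : (1 : ℝ) ≤ |(d : ℝ)| := by exact_mod_cast Int.one_le_abs hd0
  have e3 : p.1 * d = l1 * (F i2).coeff 0 - l2 * (F i1).coeff 0 := by rw [e1, e2, hd]; ring
  have e4 : p.2 * d = l2 * (F i1).coeff 1 - l1 * (F i2).coeff 1 := by rw [e1, e2, hd]; ring
  have key : ∀ (x : ℤ) (u v : ℤ), x * d = l1 * u - l2 * v → |(u : ℝ)| ≤ K → |(v : ℝ)| ≤ K →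
      |(x : ℝ)| ≤ 2 * K * |((DV F n e c p : ℤ) : ℝ)| := by
    intro x u v hx hu hv
    have h1 : |(x : ℝ)| * |(d : ℝ)| = |(l1 : ℝ) * u - l2 * v| := by
      rw [← abs_mul]
      congr 1
      exact_mod_cast hx
    have h2 : |(l1 : ℝ) * u - l2 * v| ≤ |(l1 : ℝ)| * K + |(l2 : ℝ)| * K := by
      refine (abs_sub _ _).trans ?_
      rw [abs_mul, abs_mul]
      gcongr
    have h3 : |(x : ℝ)| ≤ |(x : ℝ)| * |(d : ℝ)| := le_mul_of_one_le_right (abs_nonneg _) hd1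
    have hK0 : 0 ≤ K := by linarith
    have h4 : |(l1 : ℝ)| ≤ |(l1 : ℝ)| * |(l2 : ℝ)| := le_mul_of_one_le_right (abs_nonneg _) b2
    have h5 : |(l2 : ℝ)| ≤ |(l1 : ℝ)| * |(l2 : ℝ)| := le_mul_of_one_le_left (abs_nonneg _) b1
    calc |(x : ℝ)| ≤ |(l1 : ℝ)| * K + |(l2 : ℝ)| * K := by linarith
      _ = K * (|(l1 : ℝ)| + |(l2 : ℝ)|) := by ring
      _ ≤ K * (2 * |((DV F n e c p : ℤ) : ℝ)|) := by
          refine mul_le_mul_of_nonneg_left ?_ hK0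
          linarith
      _ = _ := by ring
  refine ⟨key p.1 _ _ e3 (by linarith) (by linarith), ?_⟩
  refine key p.2 (-(F i2).coeff 1) (-(F i1).coeff 1) ?_ ?_ ?_
  · rw [e4]; ring
  · push_cast
    rw [abs_neg]
    linarith
  · push_cast
    rw [abs_neg]
    linarith

end gen

theorem fin_of_bound {α : Type} (S : Set α) (b : ℝ) (h : ∀ s : Finset α, (↑s : Set α) ⊆ S →
    (s.card : ℝ) ≤ b) : S.Finite ∧ (S.ncard : ℝ) ≤ b := by
  have hfin : S.Finite := by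
    by_contra hinf
    obtain ⟨t, ht, hc⟩ := Set.Infinite.exists_subset_card_eq hinf (⌊b⌋₊ + 1)
    have h1 := h t ht
    rw [hc] at h1
    have h2 := Nat.lt_floor_add_one b
    push_cast at h1
    linarith
  refine ⟨hfin, ?_⟩
  rw [Set.ncard_eq_toFinset_card _ hfin]
  exact h _ (by simp)

theorem cond_pos (W : WeierstrassCurve ℤ) : 1 ≤ cond W :=
  Nat.one_le_iff_ne_zero.2 (Finset.prod_ne_zero_iff.2 fun _ hp =>
    (Nat.prime_of_mem_primeFactors hp).ne_zero)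

/-- the semistable members of the family with conductor at most `X` and `|Δ| ≤ X ^ a` -/
def MemS (A B : ℤ[X]) (a X : ℝ) (W : WeierstrassCurve ℤ) : Prop :=
  W.Δ ≠ 0 ∧ IsCoprime W.c₄ W.Δ ∧ Mem A B (27 * W.c₄) (54 * W.c₆) ∧ (cond W : ℝ) ≤ X ∧
    |(W.Δ : ℝ)| ≤ X ^ a

section quad

variable {w L : ℕ} {A B : ℤ[X]} {k : ℕ} {g : Fin w → ℤ[X]} {h : Fin L → ℤ[X]}
  {e : Fin w ⊕ Fin L → ℕ} {c : ℤ}

/-- degrees -/
def nn (w L : ℕ) : Fin w ⊕ Fin L → ℕ := Sum.elim (fun _ => 2) (fun _ => 1)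

theorem nn_sum (w L : ℕ) : ∑ i, nn w L i = 2 * w + L := by
  rw [Fintype.sum_sum_type]
  simp [nn]
  ring

theorem nn_pos (w L : ℕ) : ∀ i, 1 ≤ nn w L i := by
  rintro (j | i)
  · exact one_le_two
  · exact le_rfl

theorem elim_prod (g : Fin w → ℤ[X]) (h : Fin L → ℤ[X]) :
    ∏ i, Sum.elim g h i = (∏ j, g j) * ∏ i, h i := by
  rw [Fintype.prod_sum_type]
  rfl

theorem fm_of (hL : 3 ≤ L) (hF : FamE A B k (Sum.elim g h) (nn w L) e c) : Fm w L g h := by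
  have h1 := hF.hsq
  rw [elim_prod, nn_sum] at h1
  exact ⟨hL, fun j => hF.hn (Sum.inl j), fun i => hF.hn (Sum.inr i), h1⟩

/-- the admissibility of the parameters -/
theorem adm_of (hL : 3 ≤ L) (hF : FamE A B k (Sum.elim g h) (nn w L) e c) :
    ∃ K1 : ℝ, 1 ≤ K1 ∧ ∀ (M : ℕ) (K : ℝ) (a X : ℝ) (W : WeierstrassCurve ℤ) (p : ℤ × ℤ), 1 ≤ K →
      1 ≤ X → Par k (Sum.elim g h) (nn w L) e c M K W p → |(W.Δ : ℝ)| ≤ X ^ a →
      ∀ R : ℝ, (cond W : ℝ) ≤ R → Adm g h (6 * M) (K1 * K * X ^ a) R p := by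
  have hFm := fm_of hL hF
  obtain ⟨-, hsh, -⟩ := hFm.parts
  have hnt : Nontrivial (Fin L) := Fin.nontrivial_iff_two_le.2 (by omega)
  obtain ⟨i1, i2, hi⟩ := exists_pair_ne (Fin L)
  obtain ⟨K1, hK1, hsz⟩ := size_le hF (i1 := Sum.inr i1) (i2 := Sum.inr i2)
    (fun hc => hi (Sum.inr_injective hc)) rfl rfl
    (indep (h i1) (h i2) (hFm.hh i1) (hFm.hh i2) (hsh i1 i2 hi))
  refine ⟨K1, hK1, fun M K a X W p hK hX hP hΔ R hR => ?_⟩
  obtain ⟨b1, b2⟩ := hsz p hP.ne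
  have b3 : K1 * |((DV (Sum.elim g h) (nn w L) e c p : ℤ) : ℝ)| ≤ K1 * K * X ^ a := by
    have : |((DV (Sum.elim g h) (nn w L) e c p : ℤ) : ℝ)| ≤ K * X ^ a :=
      hP.lo.trans (mul_le_mul_of_nonneg_left hΔ (by linarith))
    calc K1 * |((DV (Sum.elim g h) (nn w L) e c p : ℤ) : ℝ)| ≤ K1 * (K * X ^ a) :=
          mul_le_mul_of_nonneg_left this (by linarith)
      _ = _ := by ring
  refine ⟨hP.cop, hP.pos, b1.trans b3, b2.trans b3, fun j => hP.ne (Sum.inl j),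
    fun i => hP.ne (Sum.inr i), ?_⟩
  refine le_trans ?_ hR
  have := hP.rad
  rw [elim_prod, nn_sum] at this
  exact_mod_cast this

/-- the count of admissible pairs -/
theorem adm_count (hL : 3 ≤ L) (hF : FamE A B k (Sum.elim g h) (nn w L) e c) (ε : ℝ)
    (hε : 0 < ε) :
    ∃ C : ℝ, 0 < C ∧ ∀ (m : ℕ) (Y R : ℝ), 1 ≤ m → 1 ≤ Y → 1 ≤ R → ∀ s : Finset (ℤ × ℤ),
      (∀ p ∈ s, Adm g h m Y R p) →
      (s.card : ℝ) ≤ C * ((m : ℝ) * Y) ^ ε * R ^ ((2 : ℝ) / (2 * (w : ℝ) + L)) := by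
  have hFm := fm_of hL hF
  have hs2 : ∑ _j : Fin w, 2 + L = 2 * w + L := by
    simp
    ring
  obtain ⟨C, hC, hmain⟩ := paired w L (by omega) (by omega) g (fun _ => 2)
    (fun j => hFm.hg j) (fun _ => le_rfl) h hFm.hh (by rw [hs2]; exact hFm.hsq) ε hε
  refine ⟨C, hC, fun m Y R hm hY hR s hs => ?_⟩
  have h1 := hmain m Y R hm hY hR s (fun p hp => by
    obtain ⟨a1, -, a3, a4, a5, a6, a7⟩ := hs p hp
    rw [hs2]
    refine ⟨a1, a3, a4, ?_, a7⟩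
    have h2 := (hom_prod univ (Sum.elim g h) (nn w L) (fun i _ => hF.hn i) p.1 p.2).2
    rw [elim_prod, nn_sum] at h2
    rw [h2]
    refine Finset.prod_ne_zero_iff.2 fun i _ => ?_
    rcases i with j | i
    · exact a5 j
    · exact a6 i)
  rw [add_comm (L : ℝ) (2 * (w : ℝ))] at h1
  exact h1

/-- **The number of the curves.** -/
theorem fam_up (hL : 3 ≤ L) (hF : FamE A B k (Sum.elim g h) (nn w L) e c) (a ε : ℝ) (ha : 0 < a)
    (hε : 0 < ε) : ∃ C : ℝ, 0 < C ∧ ∀ X : ℝ, 1 ≤ X → ∀ S : Set (ℤ × ℤ),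
      (∀ q ∈ S, ∃ W : WeierstrassCurve ℤ, MemS A B a X W ∧ q = (W.c₄, W.c₆)) →
      S.Finite ∧ (S.ncard : ℝ) ≤ C * X ^ ((2 : ℝ) / (2 * (w : ℝ) + L) + ε) := by
  obtain ⟨M, hM, K, hK, htr⟩ := transfer hF
  obtain ⟨K1, hK1, hadm⟩ := adm_of hL hF
  obtain ⟨C, hC, hcount⟩ := adm_count hL hF (ε / a) (by positivity)
  refine ⟨13 * M * (C * (((6 * M : ℕ) : ℝ) * (K1 * K)) ^ (ε / a)), ?_, fun X hX S hS => ?_⟩
  · have : (0 : ℝ) < M := by exact_mod_cast hM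
    positivity
  have hX0 : 0 < X := by linarith
  refine fin_of_bound _ _ fun s hs => ?_
  obtain ⟨s', hs', hcard⟩ := htr s (Adm g h (6 * M) (K1 * K * X ^ a) X) (fun q hq => by
    obtain ⟨W, ⟨h1, h2, h3, h4, h5⟩, rfl⟩ := hS q (hs hq)
    exact ⟨W, h1, h2, h3, rfl, fun p hp => hadm M K a X W p hK hX hp h5 X h4⟩)
  have hY : 1 ≤ K1 * K * X ^ a :=
    one_le_mul_of_one_le_of_one_le (one_le_mul_of_one_le_of_one_le hK1 hK)
      (Real.one_le_rpow hX ha.le)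
  have h1 := hcount (6 * M) (K1 * K * X ^ a) X (by omega) hY hX s' hs'
  have h2 : (((6 * M : ℕ) : ℝ) * (K1 * K * X ^ a)) ^ (ε / a) =
      (((6 * M : ℕ) : ℝ) * (K1 * K)) ^ (ε / a) * X ^ ε := by
    rw [← mul_assoc, Real.mul_rpow (by positivity) (by positivity), ← Real.rpow_mul hX0.le,
      mul_div_cancel₀ _ ha.ne']
  rw [h2] at h1
  calc (s.card : ℝ) ≤ 13 * M * (s'.card : ℝ) := by exact_mod_cast hcard
    _ ≤ 13 * M * (C * ((((6 * M : ℕ) : ℝ) * (K1 * K)) ^ (ε / a) * X ^ ε) *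
        X ^ ((2 : ℝ) / (2 * (w : ℝ) + L))) := mul_le_mul_of_nonneg_left h1 (by positivity)
    _ = 13 * M * (C * (((6 * M : ℕ) : ℝ) * (K1 * K)) ^ (ε / a)) *
        (X ^ ((2 : ℝ) / (2 * (w : ℝ) + L)) * X ^ ε) := by ring
    _ = _ := by rw [← Real.rpow_add hX0]

/-- **The exceptions.** -/
theorem fam_exc (hL : 3 ≤ L) (hF : FamE A B k (Sum.elim g h) (nn w L) e c) (a δ m : ℝ)
    (hm : m = 12 * k / (2 * (w : ℝ) + L)) (ha : 0 < a) (hδ : 0 < δ) :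
    ∃ η : ℝ, 0 < η ∧ ∃ C : ℝ, 0 < C ∧ ∀ X : ℝ, 1 ≤ X → ∀ S : Set (ℤ × ℤ),
      (∀ q ∈ S, ∃ W : WeierstrassCurve ℤ, MemS A B a X W ∧ q = (W.c₄, W.c₆) ∧
        ¬ ((cond W : ℝ) ^ (m - δ) ≤ |(W.Δ : ℝ)| ∧
          max (|(W.c₄ : ℝ)| ^ 3) ((W.c₆ : ℝ) ^ 2) ≤ (cond W : ℝ) ^ (m + δ))) →
      S.Finite ∧ (S.ncard : ℝ) ≤ C * X ^ ((2 : ℝ) / (2 * (w : ℝ) + L) - η) := by
  classical
  obtain ⟨q, hq⟩ : ∃ q : ℝ, q = 2 * (w : ℝ) + L := ⟨_, rfl⟩
  have hLr : (3 : ℝ) ≤ L := by exact_mod_cast hL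
  have hw0 : (0 : ℝ) ≤ w := Nat.cast_nonneg w
  have hq3 : 3 ≤ q := by rw [hq]; linarith
  have hq0 : 0 < q := by linarith
  have hk : (1 : ℝ) ≤ k := by exact_mod_cast hF.hk
  have hm0 : 0 < m := by rw [hm, ← hq]; positivity
  obtain ⟨M, hM, K, hK, htr⟩ := transfer hF
  obtain ⟨K1, hK1, hadm⟩ := adm_of hL hF
  have hFm := fm_of hL hF
  have hM0 : (0 : ℝ) < M := by exact_mod_cast hM
  have h6M : 1 ≤ 6 * M := by omega
  -- the parameters
  obtain ⟨δ1, hδ1e⟩ : ∃ δ1 : ℝ, δ1 = δ / (48 * k) := ⟨_, rfl⟩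
  have hδ1 : 0 < δ1 := by rw [hδ1e]; positivity
  have h12 : 12 * k * δ1 = δ / 4 := by rw [hδ1e]; field_simp; ring
  obtain ⟨κ, hκe⟩ : ∃ κ : ℝ, κ = min (δ / (4 * (m + δ))) (1 / 2) := ⟨_, rfl⟩
  have hκ : 0 < κ := by rw [hκe]; exact lt_min (by positivity) (by norm_num)
  have hκ1 : κ ≤ 1 / 2 := by rw [hκe]; exact min_le_right _ _
  have hκ2 : κ * (m + δ) ≤ δ / 4 := by
    have h1 : κ ≤ δ / (4 * (m + δ)) := by rw [hκe]; exact min_le_left _ _
    have h2 : 0 < m + δ := by linarith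
    calc κ * (m + δ) ≤ δ / (4 * (m + δ)) * (m + δ) := mul_le_mul_of_nonneg_right h1 h2.le
      _ = δ / 4 := by field_simp
  obtain ⟨η1, hη1, C1, hC1, hgood⟩ := good_pairs hFm (6 * M) h6M a (K1 * K) δ1 ha
    (one_le_mul_of_one_le_of_one_le hK1 hK) hδ1
  rw [← hq] at hgood
  obtain ⟨C2, hC2, hcount⟩ := adm_count hL hF (κ / (q * a)) (by positivity)
  rw [← hq] at hcount
  obtain ⟨X0, hX0e⟩ : ∃ X0 : ℝ, X0 = K ^ (4 / δ) := ⟨_, rfl⟩
  have hX0 : 1 ≤ X0 := by rw [hX0e]; exact Real.one_le_rpow hK (by positivity)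
  obtain ⟨κ0, hκ0⟩ : ∃ κ0 : ℝ, κ0 = (((6 * M : ℕ) : ℝ) * (K1 * K)) ^ (κ / (q * a)) := ⟨_, rfl⟩
  have hκ00 : 0 < κ0 := by rw [hκ0]; positivity
  obtain ⟨η, hηe⟩ : ∃ η : ℝ, η = min (min η1 (κ / q)) (1 / q) := ⟨_, rfl⟩
  have hη : 0 < η := by rw [hηe]; exact lt_min (lt_min hη1 (by positivity)) (by positivity)
  have hηa : η ≤ η1 := by rw [hηe]; exact (min_le_left _ _).trans (min_le_left _ _)
  have hηb : η ≤ κ / q := by rw [hηe]; exact (min_le_left _ _).trans (min_le_right _ _)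
  have hηc : η ≤ 1 / q := by rw [hηe]; exact min_le_right _ _
  refine ⟨η, hη, 13 * M * (9 * (K1 * K * X0 ^ a) ^ 2 + C1 + C2 * κ0), by positivity,
    fun X hX S hS => ?_⟩
  rw [← hq]
  have hX0' : 0 < X := by linarith
  have hpow1 : 1 ≤ X ^ (2 / q - η) := by
    refine Real.one_le_rpow hX ?_
    have : 2 / q = 1 / q + 1 / q := by ring
    linarith [show (0 : ℝ) < 1 / q by positivity]
  have hY1 : 1 ≤ K1 * K * X ^ a :=
    one_le_mul_of_one_le_of_one_le (one_le_mul_of_one_le_of_one_le hK1 hK)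
      (Real.one_le_rpow hX ha.le)
  refine fin_of_bound _ _ fun s hs => ?_
  rcases lt_or_ge X X0 with hsmall | hlarge
  · obtain ⟨s', hs', hcard⟩ := htr s (Adm g h (6 * M) (K1 * K * X ^ a) X) (fun q hq => by
      obtain ⟨W, ⟨h1, h2, h3, h4, h5⟩, rfl, -⟩ := hS q (hs hq)
      exact ⟨W, h1, h2, h3, rfl, fun p hp => hadm M K a X W p hK hX hp h5 X h4⟩)
    have h1 := box_card (K1 * K * X ^ a) hY1 s' fun p hp => by
      obtain ⟨-, -, h3, h4, -⟩ := hs' p hp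
      exact ⟨h3, h4⟩
    have h2 : K1 * K * X ^ a ≤ K1 * K * X0 ^ a := by
      have := Real.rpow_le_rpow hX0'.le hsmall.le ha.le
      gcongr
    have h3 : (K1 * K * X ^ a) ^ 2 ≤ (K1 * K * X0 ^ a) ^ 2 := pow_le_pow_left₀ (by positivity) h2 2
    have h4 : (s'.card : ℝ) ≤ 9 * (K1 * K * X0 ^ a) ^ 2 := by linarith
    calc (s.card : ℝ) ≤ 13 * M * (s'.card : ℝ) := by exact_mod_cast hcard
      _ ≤ 13 * M * (9 * (K1 * K * X0 ^ a) ^ 2) := mul_le_mul_of_nonneg_left h4 (by positivity)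
      _ ≤ 13 * M * (9 * (K1 * K * X0 ^ a) ^ 2 + C1 + C2 * κ0) * 1 := by
          rw [mul_one]
          refine mul_le_mul_of_nonneg_left ?_ (by positivity)
          have : 0 < C2 * κ0 := by positivity
          linarith
      _ ≤ _ := mul_le_mul_of_nonneg_left hpow1 (by positivity)
  -- large X
  have hXδ : K ≤ X ^ (δ / 4) := by
    have h1 : X0 ^ (δ / 4) ≤ X ^ (δ / 4) := Real.rpow_le_rpow (by linarith) hlarge (by positivity)
    rw [hX0e, ← Real.rpow_mul (by linarith)] at h1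
    have h2 : 4 / δ * (δ / 4) = 1 := by field_simp
    rw [h2, Real.rpow_one] at h1
    exact h1
  obtain ⟨s', hs', hcard⟩ := htr s (fun p => (Adm g h (6 * M) (K1 * K * X ^ a) (K1 * K * X) p ∧
      ¬ Good g h δ1 X p) ∨ Adm g h (6 * M) (K1 * K * X ^ a) (X ^ (1 - κ)) p) (fun q' hq' => by
    obtain ⟨W, ⟨h1, h2, h3, h4, h5⟩, rfl, h6⟩ := hS q' (hs hq')
    refine ⟨W, h1, h2, h3, rfl, fun p hp => ?_⟩
    by_cases hc : (cond W : ℝ) ≤ X ^ (1 - κ)
    · right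
      exact hadm M K a X W p hK hX hp h5 _ hc
    · left
      push Not at hc
      refine ⟨hadm M K a X W p hK hX hp h5 _ ?_, fun hgd => h6 ?_⟩
      · refine h4.trans ?_
        have := one_le_mul_of_one_le_of_one_le hK1 hK
        nlinarith
      obtain ⟨g1, g2, g3⟩ := hgd
      rw [← hq] at g1 g2 g3
      have hN1 : (1 : ℝ) ≤ cond W := by exact_mod_cast cond_pos W
      have hΔ1 : (1 : ℝ) ≤ |(W.Δ : ℝ)| := by exact_mod_cast Int.one_le_abs h1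
      have hmq : 12 * (k : ℝ) / q = m := by rw [hm, ← hq]
      constructor
      · rcases le_or_gt (m - δ) 0 with hneg | hpos
        · exact (Real.rpow_le_one_of_one_le_of_nonpos hN1 hneg).trans hΔ1
        · have l1 := dv_lower hF (nn_pos w L) (q := q) hX hδ1.le (p := p) (by
            rintro (j | i)
            · have := g1 j
              simpa [nn] using this
            · have := g2 i
              simpa [nn] using this)
          rw [hmq, h12] at l1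
          have l2 := l1.trans hp.lo
          have l3 : (cond W : ℝ) ^ (m - δ) ≤ X ^ (m - δ) :=
            Real.rpow_le_rpow (by linarith) h4 hpos.le
          have l4 : K * X ^ (m - δ) ≤ X ^ (m - δ / 4) := by
            have e1 : m - δ / 4 = δ / 4 + (m - δ) + δ / 2 := by ring
            rw [e1, Real.rpow_add hX0', Real.rpow_add hX0']
            have e2 : 1 ≤ X ^ (δ / 2) := Real.one_le_rpow hX (by positivity)
            have e3 : K ≤ X ^ (δ / 4) := hXδ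
            have e4 : 0 < X ^ (m - δ) := by positivity
            calc K * X ^ (m - δ) ≤ X ^ (δ / 4) * X ^ (m - δ) :=
                  mul_le_mul_of_nonneg_right e3 e4.le
              _ ≤ X ^ (δ / 4) * X ^ (m - δ) * X ^ (δ / 2) :=
                  le_mul_of_one_le_right (by positivity) e2
          have l5 : K * X ^ (m - δ) ≤ K * |(W.Δ : ℝ)| := l4.trans l2
          have l6 : X ^ (m - δ) ≤ |(W.Δ : ℝ)| := le_of_mul_le_mul_left l5 (by linarith)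
          exact l3.trans l6
      · have hmax0 : 0 ≤ max |(p.1 : ℝ)| |(p.2 : ℝ)| := (abs_nonneg _).trans (le_max_left _ _)
        have u2 : (max |(p.1 : ℝ)| |(p.2 : ℝ)|) ^ (12 * k) ≤ X ^ (m + δ / 4) := by
          calc (max |(p.1 : ℝ)| |(p.2 : ℝ)|) ^ (12 * k) ≤ (X ^ (1 / q + δ1)) ^ (12 * k) :=
                pow_le_pow_left₀ hmax0 g3 _
            _ = X ^ (m + δ / 4) := by
                rw [← Real.rpow_natCast, ← Real.rpow_mul hX0'.le]
                congr 1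
                push_cast
                have : (1 / q + δ1) * (12 * (k : ℝ)) = 12 * k / q + 12 * k * δ1 := by ring
                rw [this, hmq, h12]
        have u3 : max (|(W.c₄ : ℝ)| ^ 3) ((W.c₆ : ℝ) ^ 2) ≤ K * X ^ (m + δ / 4) := by
          calc max (|(W.c₄ : ℝ)| ^ 3) ((W.c₆ : ℝ) ^ 2) ≤
                K * (max |(p.1 : ℝ)| |(p.2 : ℝ)|) ^ (12 * k) := hp.ht
            _ ≤ K * X ^ (m + δ / 4) := mul_le_mul_of_nonneg_left u2 (by linarith)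
        have u4 : K * X ^ (m + δ / 4) ≤ X ^ (m + δ / 2) := by
          have e1 : m + δ / 2 = δ / 4 + (m + δ / 4) := by ring
          rw [e1, Real.rpow_add hX0' (δ / 4)]
          exact mul_le_mul_of_nonneg_right hXδ (by positivity)
        have u5 : X ^ (m + δ / 2) ≤ (X ^ (1 - κ)) ^ (m + δ) := by
          rw [← Real.rpow_mul hX0'.le]
          refine Real.rpow_le_rpow_of_exponent_le hX ?_
          have : (1 - κ) * (m + δ) = m + δ - κ * (m + δ) := by ring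
          rw [this]
          linarith
        have u6 : (X ^ (1 - κ)) ^ (m + δ) ≤ (cond W : ℝ) ^ (m + δ) :=
          Real.rpow_le_rpow (by positivity) hc.le (by linarith)
        linarith)
  obtain ⟨T1, hT1⟩ : ∃ T1 : Finset (ℤ × ℤ), T1 = s'.filter fun p =>
    Adm g h (6 * M) (K1 * K * X ^ a) (K1 * K * X) p ∧ ¬ Good g h δ1 X p := ⟨_, rfl⟩
  obtain ⟨T2, hT2⟩ : ∃ T2 : Finset (ℤ × ℤ), T2 = s'.filter fun p =>
    Adm g h (6 * M) (K1 * K * X ^ a) (X ^ (1 - κ)) p := ⟨_, rfl⟩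
  have hcov : s' ⊆ T1 ∪ T2 := by
    intro p hp
    rw [mem_union, hT1, hT2, mem_filter, mem_filter]
    rcases hs' p hp with h1 | h1
    · exact Or.inl ⟨hp, h1⟩
    · exact Or.inr ⟨hp, h1⟩
  have hc1 : (T1.card : ℝ) ≤ C1 * X ^ (2 / q - η) := by
    have h1 := hgood X hX T1 (fun p hp => by
      rw [hT1] at hp
      exact (mem_filter.1 hp).2)
    refine h1.trans (mul_le_mul_of_nonneg_left ?_ hC1.le)
    exact Real.rpow_le_rpow_of_exponent_le hX (by linarith)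
  have hc2 : (T2.card : ℝ) ≤ C2 * κ0 * X ^ (2 / q - η) := by
    have h1 := hcount (6 * M) (K1 * K * X ^ a) (X ^ (1 - κ)) h6M hY1
      (Real.one_le_rpow hX (by linarith)) T2 (fun p hp => by
      rw [hT2] at hp
      exact (mem_filter.1 hp).2)
    have h2 : (((6 * M : ℕ) : ℝ) * (K1 * K * X ^ a)) ^ (κ / (q * a)) = κ0 * X ^ (κ / q) := by
      rw [← mul_assoc, Real.mul_rpow (by positivity) (by positivity), ← Real.rpow_mul hX0'.le,
        ← hκ0]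
      congr 2
      field_simp
    rw [h2, ← Real.rpow_mul hX0'.le] at h1
    refine h1.trans ?_
    have e1 : C2 * (κ0 * X ^ (κ / q)) * X ^ ((1 - κ) * (2 / q)) =
        C2 * κ0 * (X ^ (κ / q) * X ^ ((1 - κ) * (2 / q))) := by ring
    rw [e1, ← Real.rpow_add hX0']
    refine mul_le_mul_of_nonneg_left (Real.rpow_le_rpow_of_exponent_le hX ?_) (by positivity)
    have : κ / q + (1 - κ) * (2 / q) = 2 / q - κ / q := by ring
    rw [this]
    linarith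
  have hc3 : (s'.card : ℝ) ≤ (T1.card : ℝ) + (T2.card : ℝ) := by
    exact_mod_cast (card_le_card hcov).trans (card_union_le _ _)
  have hP0 : 0 < X ^ (2 / q - η) := by positivity
  calc (s.card : ℝ) ≤ 13 * M * (s'.card : ℝ) := by exact_mod_cast hcard
    _ ≤ 13 * M * (C1 * X ^ (2 / q - η) + C2 * κ0 * X ^ (2 / q - η)) :=
        mul_le_mul_of_nonneg_left (by linarith) (by positivity)
    _ = 13 * M * (C1 + C2 * κ0) * X ^ (2 / q - η) := by ring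
    _ ≤ 13 * M * (9 * (K1 * K * X0 ^ a) ^ 2 + C1 + C2 * κ0) * X ^ (2 / q - η) := by
        refine mul_le_mul_of_nonneg_right ?_ hP0.le
        refine mul_le_mul_of_nonneg_left ?_ (by positivity)
        have : 0 ≤ 9 * (K1 * K * X0 ^ a) ^ 2 := by positivity
        linarith

end quad

end Pool.Agent.T2h19.SZ
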