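import Pool.Agent.TH498.HF.L1
import Pool.Agent.T2h19.SZ.P3

/-!
# Many semistable members of a family
-/

set_option autoImplicit false

namespace Pool.Agent.T2h19.SZ

open Finset Polynomial Pool.Agent.W4.CF Pool.Agent.W4.VC Pool.Agent.TH498.KB
open Pool.Agent.TH498.HF (cpr cpr_card)

/-- the product of the primes that divide `Q` but not `b` -/
def tt (Q b : ℕ) : ℕ := ∏ p ∈ Q.primeFactors.filter (fun p => ¬ p ∣ b), p

theorem tt_dvd (Q b : ℕ) : tt Q b ∣ Q :=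
  (Finset.prod_dvd_prod_of_subset _ _ _ (filter_subset _ _)).trans (Nat.prod_primeFactors_dvd Q)

theorem tt_cop {Q a b l : ℕ} (hQ : 1 ≤ Q) (hab : Nat.Coprime a b) :
    Nat.Coprime Q (b + (tt Q b + Q * l) * a) := by
  rw [Nat.coprime_iff_gcd_eq_one]
  by_contra hne
  obtain ⟨p, hp, hpd⟩ := Nat.exists_prime_and_dvd hne
  have h1 : p ∣ Q := hpd.trans (Nat.gcd_dvd_left _ _)
  have h2 : p ∣ b + (tt Q b + Q * l) * a := hpd.trans (Nat.gcd_dvd_right _ _)
  have h3 : b + (tt Q b + Q * l) * a = (b + tt Q b * a) + Q * (l * a) := by ring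
  rw [h3] at h2
  have h4 : p ∣ b + tt Q b * a := (Nat.dvd_add_left (h1.mul_right _)).1 h2
  by_cases hb : p ∣ b
  · have h5 : p ∣ tt Q b * a := (Nat.dvd_add_right hb).1 h4
    rcases (Nat.Prime.dvd_mul hp).1 h5 with h6 | h6
    · unfold tt at h6
      obtain ⟨r, hr, hpr⟩ := (Prime.dvd_finsetProd_iff hp.prime _).1 h6
      obtain ⟨hr1, hr2⟩ := mem_filter.1 hr
      have := (Nat.prime_dvd_prime_iff_eq hp (Nat.prime_of_mem_primeFactors hr1)).1 hpr
      rw [← this] at hr2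
      exact hr2 hb
    · exact Nat.Prime.not_dvd_one hp (by
        have := Nat.dvd_gcd h6 hb
        rwa [hab] at this)
  · have h5 : p ∣ tt Q b := by
      unfold tt
      exact Finset.dvd_prod_of_mem _ (mem_filter.2 ⟨Nat.mem_primeFactors.2 ⟨hp, h1, by omega⟩, hb⟩)
    exact hb ((Nat.dvd_add_left (h5.mul_right _)).1 h4)

/-- many pairs of coprime integers, the second prime to `Q` -/
theorem many (Q H Λ : ℕ) (hQ : 1 ≤ Q) : ∃ s : Finset (ℕ × ℕ),
    (∀ p ∈ s, Nat.Coprime p.1 p.2 ∧ Nat.Coprime Q p.2 ∧ 0 < p.1 ∧ p.1 ≤ H ∧ 0 < p.2 ∧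
      p.2 ≤ (1 + Q * Λ) * H) ∧ (H : ℝ) ^ 2 * Λ / 8 ≤ (s.card : ℝ) := by
  classical
  set T := (cpr H).filter (fun p => p.2 ≤ p.1) with hT
  have hTc : (cpr H).card ≤ 2 * T.card := by
    have h1 : cpr H ⊆ T ∪ T.image Prod.swap := by
      intro p hp
      rw [mem_union]
      rcases le_total p.2 p.1 with h | h
      · exact Or.inl (mem_filter.2 ⟨hp, h⟩)
      · right
        refine mem_image.2 ⟨p.swap, mem_filter.2 ⟨?_, h⟩, Prod.swap_swap p⟩
        unfold cpr at hp ⊢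
        obtain ⟨h2, h3⟩ := mem_filter.1 hp
        obtain ⟨h4, h5⟩ := mem_product.1 h2
        exact mem_filter.2 ⟨mem_product.2 ⟨h5, h4⟩, h3.symm⟩
    have h2 := (card_le_card h1).trans (card_union_le _ _)
    have h3 : (T.image Prod.swap).card ≤ T.card := card_image_le
    omega
  let φ : (ℕ × ℕ) × ℕ → ℕ × ℕ := fun u => (u.1.1, u.1.2 + (tt Q u.1.2 + Q * u.2) * u.1.1)
  have hTm : ∀ p ∈ T, 0 < p.1 ∧ p.1 ≤ H ∧ 0 < p.2 ∧ p.2 ≤ p.1 ∧ Nat.Coprime p.1 p.2 := by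
    intro p hp
    obtain ⟨h1, h2⟩ := mem_filter.1 hp
    unfold cpr at h1
    obtain ⟨h3, h4⟩ := mem_filter.1 h1
    obtain ⟨h5, h6⟩ := mem_product.1 h3
    rw [mem_Ioc] at h5 h6
    exact ⟨h5.1, h5.2, h6.1, h2, h4⟩
  refine ⟨(T ×ˢ range Λ).image φ, ?_, ?_⟩
  · intro p hp
    obtain ⟨u, hu, rfl⟩ := mem_image.1 hp
    obtain ⟨h1, h2⟩ := mem_product.1 hu
    obtain ⟨a1, a2, a3, a4, a5⟩ := hTm u.1 h1
    rw [mem_range] at h2
    refine ⟨?_, tt_cop hQ a5, a1, a2, ?_, ?_⟩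
    · change Nat.Coprime u.1.1 (u.1.2 + (tt Q u.1.2 + Q * u.2) * u.1.1)
      rw [Nat.coprime_add_mul_right_right]
      exact a5
    · change 0 < u.1.2 + (tt Q u.1.2 + Q * u.2) * u.1.1
      omega
    · change u.1.2 + (tt Q u.1.2 + Q * u.2) * u.1.1 ≤ (1 + Q * Λ) * H
      have ht : tt Q u.1.2 ≤ Q := Nat.le_of_dvd (by omega) (tt_dvd _ _)
      have h3 : tt Q u.1.2 + Q * u.2 ≤ Q * Λ := by
        calc tt Q u.1.2 + Q * u.2 ≤ Q + Q * u.2 := by omega
          _ = Q * (u.2 + 1) := by ring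
          _ ≤ Q * Λ := Nat.mul_le_mul_left _ (by omega)
      calc u.1.2 + (tt Q u.1.2 + Q * u.2) * u.1.1 ≤ H + Q * Λ * H :=
            Nat.add_le_add (a4.trans a2) (Nat.mul_le_mul h3 a2)
        _ = (1 + Q * Λ) * H := by ring
  · have hcard : ((T ×ˢ range Λ).image φ).card = T.card * Λ := by
      rw [card_image_of_injOn, card_product, card_range]
      intro u hu v hv huv
      obtain ⟨h1, h2⟩ := mem_product.1 (mem_coe.1 hu)
      obtain ⟨h1', h2'⟩ := mem_product.1 (mem_coe.1 hv)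
      obtain ⟨a1, a2, a3, a4, a5⟩ := hTm u.1 h1
      obtain ⟨b1, b2, b3, b4, b5⟩ := hTm v.1 h1'
      simp only [φ, Prod.mk.injEq] at huv
      obtain ⟨e1, e2⟩ := huv
      rw [← e1] at e2 b4
      have e3 : u.1.2 = v.1.2 := by
        have h3 : (u.1.2 : ℤ) - v.1.2 = (u.1.1 : ℤ) *
            ((tt Q v.1.2 + Q * v.2 : ℕ) - (tt Q u.1.2 + Q * u.2 : ℕ) : ℤ) := by
          have : ((u.1.2 + (tt Q u.1.2 + Q * u.2) * u.1.1 : ℕ) : ℤ) =
              ((v.1.2 + (tt Q v.1.2 + Q * v.2) * u.1.1 : ℕ) : ℤ) := by rw [e2]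
          push_cast at this ⊢
          linear_combination this
        have h4 : |(u.1.2 : ℤ) - v.1.2| < u.1.1 := by
          rw [abs_lt]
          constructor <;> omega
        have h5 := Int.eq_zero_of_abs_lt_dvd (Dvd.intro _ h3.symm) h4
        omega
      rw [e3] at e2
      have e4 : u.2 = v.2 := by
        have h3 : (tt Q v.1.2 + Q * u.2) * u.1.1 = (tt Q v.1.2 + Q * v.2) * u.1.1 := by omega
        have h4 := Nat.eq_of_mul_eq_mul_right a1 h3
        exact Nat.eq_of_mul_eq_mul_left hQ (by omega)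
      exact Prod.ext (Prod.ext e1 e3) e4
    rw [hcard]
    have h1 := cpr_card H
    have h2 : ((cpr H).card : ℝ) ≤ 2 * (T.card : ℝ) := by exact_mod_cast hTc
    push_cast
    have h3 : (0 : ℝ) ≤ Λ := Nat.cast_nonneg Λ
    nlinarith

/-- a form modulo its first argument -/
theorem hom_mod (f : ℤ[X]) (n : ℕ) (x y : ℤ) : x ∣ hom f n x y - f.coeff 0 * y ^ n := by
  unfold hom
  rw [Finset.sum_range_succ']
  simp only [pow_zero, mul_one, Nat.sub_zero]
  rw [add_sub_cancel_right]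
  refine Finset.dvd_sum fun j _ => ?_
  refine Dvd.dvd.mul_right (Dvd.dvd.mul_left (dvd_pow_self _ (by omega)) _) _

variable {ι : Type} [Fintype ι] {a1 a2 a3 : ℤ[X]} {k : ℕ} {F : ι → ℤ[X]} {n e : ι → ℕ} {c : ℤ}

/-- the integral model with the parameter `x / y` -/
def crvZ (a1 a2 a3 : ℤ[X]) (k : ℕ) (x y : ℤ) : WeierstrassCurve ℤ :=
  ⟨hom a1 k x y, hom a2 (2 * k) x y, hom a3 (3 * k) x y, 0, 0⟩

/-- **Curves from parameters.** -/
theorem curve_of_pair (hF : FamE (27 * c4p a1 a2 a3) (54 * c6p a1 a2 a3) k F n e c)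
    (h1 : a1.natDegree ≤ k) (h2 : a2.natDegree ≤ 2 * k) (h3 : a3.natDegree ≤ 3 * k)
    (h0 : (c4p a1 a2 a3).coeff 0 = 1) : ∃ M : ℕ, 1 ≤ M ∧ ∀ x y : ℤ, IsCoprime x y → 0 < y →
      (M : ℤ) ∣ x → DV F n e c (x, y) ≠ 0 → ∃ W : WeierstrassCurve ℤ, W.Δ ≠ 0 ∧
        IsCoprime W.c₄ W.Δ ∧
        (∃ (t : ℚ) (C : WeierstrassCurve.VariableChange ℚ),
          C • crv a1 a2 a3 t = W.map (Int.castRingHom ℚ)) ∧
        136048896 * W.Δ = DV F n e c (x, y) ∧
        27 * W.c₄ = hom (27 * c4p a1 a2 a3) (4 * k) x y ∧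
        54 * W.c₆ = hom (54 * c6p a1 a2 a3) (6 * k) x y := by
  obtain ⟨M, K0, hM, -, hbez⟩ := bez2 _ _ k hF.hk hF.hA hF.hB hF.hlead hF.hcop
  refine ⟨M, hM, fun x y hxy hy hMx hDV => ?_⟩
  have hy0 : y ≠ 0 := by omega
  have hyQ : (y : ℚ) ≠ 0 := by exact_mod_cast hy0
  have q1 := hom_eval a1 k h1 x y hyQ
  have q2 := hom_eval a2 (2 * k) h2 x y hyQ
  have q3 := hom_eval a3 (3 * k) h3 x y hyQ
  have qA := hom_eval (27 * c4p a1 a2 a3) (4 * k) hF.hA x y hyQ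
  have qB := hom_eval (54 * c6p a1 a2 a3) (6 * k) hF.hB x y hyQ
  simp only [c4p, Polynomial.map_sub, Polynomial.map_mul, Polynomial.map_pow, Polynomial.map_add,
    Polynomial.map_ofNat, eval_sub, eval_mul, eval_pow, eval_add, eval_ofNat] at qA
  simp only [c6p, Polynomial.map_sub, Polynomial.map_neg, eval_neg, Polynomial.map_mul,
    Polynomial.map_pow, Polynomial.map_add, Polynomial.map_ofNat, eval_sub, eval_mul, eval_pow,
    eval_add, eval_ofNat] at qB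
  have e4 : (y : ℚ) ^ (4 * k) = ((y : ℚ) ^ k) ^ 4 := by rw [← pow_mul, mul_comm]
  have e2 : (y : ℚ) ^ (2 * k) = ((y : ℚ) ^ k) ^ 2 := by rw [← pow_mul, mul_comm]
  have e3 : (y : ℚ) ^ (3 * k) = ((y : ℚ) ^ k) ^ 3 := by rw [← pow_mul, mul_comm]
  have e6 : (y : ℚ) ^ (6 * k) = ((y : ℚ) ^ k) ^ 6 := by rw [← pow_mul, mul_comm]
  obtain ⟨W, hW⟩ : ∃ W : WeierstrassCurve ℤ, W = crvZ a1 a2 a3 k x y := ⟨_, rfl⟩
  have c4e : 27 * W.c₄ = hom (27 * c4p a1 a2 a3) (4 * k) x y := by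
    have : ((27 * W.c₄ : ℤ) : ℚ) = ((hom (27 * c4p a1 a2 a3) (4 * k) x y : ℤ) : ℚ) := by
      rw [hW]
      simp only [crvZ, WeierstrassCurve.c₄, WeierstrassCurve.b₂, WeierstrassCurve.b₄]
      push_cast
      rw [c4p, qA, q1, q2, q3, e4, e2, e3]
      ring
    exact_mod_cast this
  have c6e : 54 * W.c₆ = hom (54 * c6p a1 a2 a3) (6 * k) x y := by
    have : ((54 * W.c₆ : ℤ) : ℚ) = ((hom (54 * c6p a1 a2 a3) (6 * k) x y : ℤ) : ℚ) := by
      rw [hW]
      simp only [crvZ, WeierstrassCurve.c₆, WeierstrassCurve.b₂, WeierstrassCurve.b₄,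
        WeierstrassCurve.b₆]
      push_cast
      rw [c6p, qB, q1, q2, q3, e6, e2, e3]
      ring
    exact_mod_cast this
  have hdisc : 136048896 * W.Δ = DV F n e c (x, y) := by
    rw [← disc_val hF x y hy0, ← c4e, ← c6e]
    have := W.c_relation
    linear_combination 78732 * this
  have hΔ : W.Δ ≠ 0 := by
    intro h
    rw [h, mul_zero] at hdisc
    exact hDV hdisc.symm
  refine ⟨W, hΔ, ?_, ⟨(x : ℚ) / y, ⟨(Units.mk0 ((y : ℚ) ^ k) (pow_ne_zero _ hyQ))⁻¹, 0, 0, 0⟩, ?_⟩,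
    hdisc, c4e, c6e⟩
  · -- coprimality
    rw [Int.isCoprime_iff_gcd_eq_one]
    by_contra hne
    obtain ⟨p, hp, hpd⟩ := Nat.exists_prime_and_dvd hne
    have hpZ : Prime (p : ℤ) := Nat.prime_iff_prime_int.mp hp
    have d1 : (p : ℤ) ∣ W.c₄ := (Int.natCast_dvd_natCast.2 hpd).trans (Int.gcd_dvd_left _ _)
    have d2 : (p : ℤ) ∣ W.Δ := (Int.natCast_dvd_natCast.2 hpd).trans (Int.gcd_dvd_right _ _)
    have d3 : (p : ℤ) ∣ W.c₆ := by
      have h5 : W.c₆ ^ 2 = W.c₄ ^ 3 - 1728 * W.Δ := by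
        have := W.c_relation
        linear_combination this
      have h6 : (p : ℤ) ∣ W.c₆ ^ 2 := by
        rw [h5]
        exact dvd_sub (dvd_pow d1 (by norm_num)) (Dvd.dvd.mul_left d2 _)
      exact hpZ.dvd_of_dvd_pow h6
    have d4 : (p : ℤ) ∣ M := (hbez x y hxy).1 _ (by rw [← c4e]; exact Dvd.dvd.mul_left d1 _)
      (by rw [← c6e]; exact Dvd.dvd.mul_left d3 _)
    have d5 : (p : ℤ) ∣ x := d4.trans hMx
    -- `c₄` modulo `p`
    have hdc4 : (c4p a1 a2 a3).natDegree ≤ 4 * k := by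
      have := hF.hA
      have h27 : ((27 : ℤ[X]) * c4p a1 a2 a3).natDegree = (c4p a1 a2 a3).natDegree :=
        natDegree_C_mul (a := (27 : ℤ)) (by norm_num)
      rwa [h27] at this
    have hc4 : W.c₄ = hom (c4p a1 a2 a3) (4 * k) x y := by
      have h7 := Pool.Agent.W505.VC.t_HOM.1 (C (27 : ℤ)) (c4p a1 a2 a3) 0 (4 * k) (by simp) hdc4 x y
      rw [Nat.zero_add, hom_C, pow_zero, mul_one] at h7
      have h8 : (C (27 : ℤ) : ℤ[X]) = 27 := by simp
      rw [h8, ← c4e] at h7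
      omega
    have h9 := hom_mod (c4p a1 a2 a3) (4 * k) x y
    rw [h0, one_mul, ← hc4] at h9
    have h10 : (p : ℤ) ∣ y ^ (4 * k) := by
      have h11 := dvd_sub d1 (d5.trans h9)
      rwa [sub_sub_cancel] at h11
    have h12 := hpZ.dvd_of_dvd_pow h10
    obtain ⟨u, v, huv⟩ := hxy
    have h13 : (p : ℤ) ∣ 1 := by
      rw [← huv]
      exact dvd_add (Dvd.dvd.mul_left d5 _) (Dvd.dvd.mul_left h12 _)
    exact hpZ.not_dvd_one h13
  · rw [hW, WeierstrassCurve.variableChange_def]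
    ext
    · simp only [crv, crvZ, WeierstrassCurve.map, inv_inv, Units.val_mk0, eq_intCast]
      rw [q1]
      ring
    · simp only [crv, crvZ, WeierstrassCurve.map, inv_inv, Units.val_mk0, eq_intCast]
      rw [q2, e2]
      ring
    · simp only [crv, crvZ, WeierstrassCurve.map, inv_inv, Units.val_mk0, eq_intCast]
      rw [q3, e3]
      ring
    · simp only [crv, crvZ, WeierstrassCurve.map, inv_inv, Units.val_mk0, eq_intCast]
      push_cast
      ring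
    · simp only [crv, crvZ, WeierstrassCurve.map, inv_inv, Units.val_mk0, eq_intCast]
      push_cast
      ring

/-- counting curves by their parameters -/
theorem count_pairs (hF : FamE (27 * c4p a1 a2 a3) (54 * c6p a1 a2 a3) k F n e c)
    (s : Finset (ℤ × ℤ)) (S : Set (ℤ × ℤ)) (hS : S.Finite)
    (hs : ∀ p ∈ s, IsCoprime p.1 p.2 ∧ 0 < p.2 ∧ ∃ W : WeierstrassCurve ℤ, W.Δ ≠ 0 ∧
      27 * W.c₄ = hom (27 * c4p a1 a2 a3) (4 * k) p.1 p.2 ∧
      54 * W.c₆ = hom (54 * c6p a1 a2 a3) (6 * k) p.1 p.2 ∧ (W.c₄, W.c₆) ∈ S) :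
    (s.card : ℝ) ≤ 12 * k * S.ncard := by
  classical
  have hs' : ∀ p ∈ s, ∃ W : WeierstrassCurve ℤ, W.Δ ≠ 0 ∧
      27 * W.c₄ = hom (27 * c4p a1 a2 a3) (4 * k) p.1 p.2 ∧
      54 * W.c₆ = hom (54 * c6p a1 a2 a3) (6 * k) p.1 p.2 ∧ (W.c₄, W.c₆) ∈ S :=
    fun p hp => (hs p hp).2.2
  choose! W hW0 hW4 hW6 hWS using hs'
  have hfib : ∀ v ∈ hS.toFinset, (s.filter (fun p => ((W p).c₄, (W p).c₆) = v)).card ≤ 12 * k := by
    intro v hv
    rcases (s.filter (fun p => ((W p).c₄, (W p).c₆) = v)).eq_empty_or_nonempty with h0 | ⟨p0, hp0⟩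
    · rw [h0, card_empty]
      exact Nat.zero_le _
    obtain ⟨hp0s, hp0v⟩ := mem_filter.1 hp0
    have hv1 : v.1 = (W p0).c₄ := by rw [← hp0v]
    have hv2 : v.2 = (W p0).c₆ := by rw [← hp0v]
    have hD : 4 * (27 * v.1) ^ 3 - 27 * (54 * v.2) ^ 2 ≠ 0 := by
      rw [hv1, hv2]
      have h5 : (4 * (27 * (W p0).c₄) ^ 3 - 27 * (54 * (W p0).c₆) ^ 2 : ℤ) =
          136048896 * (W p0).Δ := by
        have := (W p0).c_relation
        linear_combination (-78732) * this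
      rw [h5]
      exact mul_ne_zero (by norm_num) (hW0 p0 hp0s)
    have himg : ((s.filter (fun p => ((W p).c₄, (W p).c₆) = v)).image
        (fun p => (p.1 : ℚ) / (p.2 : ℚ))).card ≤ 12 * k := by
      refine Pool.Agent.TH498.HF.fibre _ _ k hF.hk hF.hA hF.hB hF.hlead hF.hcop (27 * v.1)
        (54 * v.2) hD _ fun t ht => ?_
      obtain ⟨p, hp, rfl⟩ := mem_image.1 ht
      obtain ⟨hps, hpv⟩ := mem_filter.1 hp
      have hp2 : (p.2 : ℚ) ≠ 0 := by
        have := (hs p hps).2.1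
        exact_mod_cast this.ne'
      have hA := hom_eval _ (4 * k) hF.hA p.1 p.2 hp2
      have hB := hom_eval _ (6 * k) hF.hB p.1 p.2 hp2
      rw [← hW4 p hps] at hA
      rw [← hW6 p hps] at hB
      have e1 : v.1 = (W p).c₄ := by rw [← hpv]
      have e2 : v.2 = (W p).c₆ := by rw [← hpv]
      refine ⟨((p.2 : ℚ) ^ k)⁻¹, inv_ne_zero (pow_ne_zero _ hp2), ?_, ?_⟩
      · rw [e1, hA, inv_pow, ← pow_mul, mul_comm k 4, inv_mul_cancel_left₀ (pow_ne_zero _ hp2)]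
      · rw [e2, hB, inv_pow, ← pow_mul, mul_comm k 6, inv_mul_cancel_left₀ (pow_ne_zero _ hp2)]
    rwa [card_image_of_injOn] at himg
    intro p hp p' hp' heq
    obtain ⟨hps, -⟩ := mem_filter.1 (mem_coe.1 hp)
    obtain ⟨hps', -⟩ := mem_filter.1 (mem_coe.1 hp')
    obtain ⟨c1, c2, -⟩ := hs p hps
    obtain ⟨c1', c2', -⟩ := hs p' hps'
    have g1 := Rat.div_int_inj (a := p.1) (b := p.2) (c := p'.1) (d := p'.2) c2 c2'
      (Int.isCoprime_iff_gcd_eq_one.1 c1) (Int.isCoprime_iff_gcd_eq_one.1 c1') heq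
    exact Prod.ext g1.1 g1.2
  have hcard : s.card ≤ hS.toFinset.card * (12 * k) := by
    rw [card_eq_sum_card_fiberwise (f := fun p => ((W p).c₄, (W p).c₆)) (s := s)
      (t := hS.toFinset) (fun p hp => by
        rw [Set.Finite.coe_toFinset]
        exact hWS p (mem_coe.1 hp))]
    exact (Finset.sum_le_sum hfib).trans (by rw [sum_const, smul_eq_mul])
  rw [Set.ncard_eq_toFinset_card _ hS]
  calc (s.card : ℝ) ≤ ((hS.toFinset.card * (12 * k) : ℕ) : ℝ) := by exact_mod_cast hcard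
    _ = _ := by push_cast; ring

end Pool.Agent.T2h19.SZ
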