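import Pool.Agent.T2h19.SZ.P4
import Pool.Agent.T2h19.SZ.P5

/-!
# Many semistable members of a family: the count
-/

set_option autoImplicit false

namespace Pool.Agent.T2h19.SZ

open Finset Polynomial Pool.Agent.W4.CF Pool.Agent.W4.VC Pool.Agent.TH498.KB

variable {ι : Type} [Fintype ι] {A B : ℤ[X]} {k : ℕ} {F : ι → ℤ[X]} {n e : ι → ℕ} {c : ℤ}

/-- few pairs are zeros of the discriminant -/
theorem zero_pairs (hF : FamE A B k F n e c) (s : Finset (ℤ × ℤ))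
    (hs : ∀ p ∈ s, IsCoprime p.1 p.2 ∧ 0 < p.2 ∧ DV F n e c p = 0) : s.card ≤ ∑ i, n i := by
  classical
  obtain ⟨P, hP⟩ : ∃ P : ℚ[X], P = (∏ i, F i).map (Int.castRingHom ℚ) := ⟨_, rfl⟩
  have hP0 : P ≠ 0 := by
    intro h0
    have := hF.hsq.1
    rw [← hP, h0] at this
    exact not_squarefree_zero this
  have hdeg : P.natDegree ≤ ∑ i, n i := by
    rw [hP]
    exact natDegree_map_le.trans hF.hsq.2.1
  have hcard : s.card ≤ P.roots.toFinset.card := by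
    refine card_le_card_of_injOn (fun p => (p.1 : ℚ) / (p.2 : ℚ)) ?_ ?_
    · intro p hp
      obtain ⟨h1, h2, h3⟩ := hs p (mem_coe.1 hp)
      rw [mem_coe, Multiset.mem_toFinset, mem_roots hP0, IsRoot.def, hP, Polynomial.map_prod,
        eval_prod]
      unfold DV at h3
      have h4 : ∏ i, hom (F i) (n i) p.1 p.2 ^ e i = 0 := (mul_eq_zero.1 h3).resolve_left hF.hc
      obtain ⟨i, hi, h5⟩ := Finset.prod_eq_zero_iff.1 h4
      have h6 : hom (F i) (n i) p.1 p.2 = 0 := pow_eq_zero_iff (by have := hF.he i; omega) |>.1 h5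
      refine Finset.prod_eq_zero hi ?_
      have hy : (p.2 : ℚ) ≠ 0 := by exact_mod_cast h2.ne'
      have h7 := hom_eval (F i) (n i) (hF.hn i) p.1 p.2 hy
      rw [h6, Int.cast_zero] at h7
      exact (mul_eq_zero.1 h7.symm).resolve_left (pow_ne_zero _ hy)
    · intro p hp p' hp' heq
      obtain ⟨h1, h2, -⟩ := hs p (mem_coe.1 hp)
      obtain ⟨h1', h2', -⟩ := hs p' (mem_coe.1 hp')
      have g1 := Rat.div_int_inj (a := p.1) (b := p.2) (c := p'.1) (d := p'.2) h2 h2'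
        (Int.isCoprime_iff_gcd_eq_one.1 h1) (Int.isCoprime_iff_gcd_eq_one.1 h1') heq
      exact Prod.ext g1.1 g1.2
  calc s.card ≤ P.roots.toFinset.card := hcard
    _ ≤ P.roots.card := Multiset.toFinset_card_le _
    _ ≤ P.natDegree := card_roots' P
    _ ≤ _ := hdeg

/-- the conductor divides the product of the factors -/
theorem cond_dvd {W : WeierstrassCurve ℤ} {p : ℤ × ℤ}
    (h : 136048896 * W.Δ = DV F n e c p) :
    cond W ∣ c.natAbs * ∏ i, (hom (F i) (n i) p.1 p.2).natAbs := by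
  classical
  unfold cond
  refine Finset.prod_primes_dvd _ (fun l hl => (Nat.prime_of_mem_primeFactors hl).prime)
    fun l hl => ?_
  have hlp := Nat.prime_of_mem_primeFactors hl
  have hlZ : Prime (l : ℤ) := Nat.prime_iff_prime_int.mp hlp
  have h1 : (l : ℤ) ∣ DV F n e c p := by
    rw [← h]
    exact Dvd.dvd.mul_left (Int.natCast_dvd.2 (Nat.dvd_of_mem_primeFactors hl)) _
  unfold DV at h1
  rcases hlZ.dvd_or_dvd h1 with h2 | h2
  · exact Dvd.dvd.mul_right (Int.natCast_dvd.1 h2) _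
  · obtain ⟨i, hi, h3⟩ := (Prime.dvd_finsetProd_iff hlZ _).1 h2
    have h4 := Int.natCast_dvd.1 (hlZ.dvd_of_dvd_pow h3)
    exact Dvd.dvd.mul_left (h4.trans (Finset.dvd_prod_of_mem
      (fun i => (hom (F i) (n i) p.1 p.2).natAbs) hi)) _

/-- upper bound for the product of the factors -/
theorem prod_upper (hF : FamE A B k F n e c) : ∃ K : ℝ, 1 ≤ K ∧ ∀ p : ℤ × ℤ,
    ((c.natAbs * ∏ i, (hom (F i) (n i) p.1 p.2).natAbs : ℕ) : ℝ) ≤
      K * (max |(p.1 : ℝ)| |(p.2 : ℝ)|) ^ (∑ i, n i) := by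
  have h1 := fun i => Pool.Agent.W505.VC.t_HOM.2.1 (F i) (n i)
  choose D hD hDb using h1
  refine ⟨|(c : ℝ)| * ∏ i, D i, ?_, fun p => ?_⟩
  · refine one_le_mul_of_one_le_of_one_le hF.one_le_c ?_
    calc (1 : ℝ) = ∏ _i : ι, (1 : ℝ) := by simp
      _ ≤ ∏ i, D i := Finset.prod_le_prod (fun _ _ => zero_le_one) fun i _ => hD i
  · push_cast [Nat.cast_natAbs]
    rw [mul_assoc]
    refine mul_le_mul_of_nonneg_left ?_ (abs_nonneg _)
    rw [← Finset.prod_pow_eq_pow_sum, ← Finset.prod_mul_distrib]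
    exact Finset.prod_le_prod (fun i _ => abs_nonneg _) fun i _ => hDb i p.1 p.2

variable {a1 a2 a3 : ℤ[X]}

/-- **Many semistable curves.** -/
theorem fam_low (hF : FamE (27 * c4p a1 a2 a3) (54 * c6p a1 a2 a3) k F n e c)
    (h1 : a1.natDegree ≤ k) (h2 : a2.natDegree ≤ 2 * k) (h3 : a3.natDegree ≤ 3 * k)
    (h0 : (c4p a1 a2 a3).coeff 0 = 1) (hq : 1 ≤ ∑ i, n i) (a : ℝ)
    (ha : 12 * (k : ℝ) / ((∑ i, n i : ℕ) : ℝ) ≤ a) :
    ∃ c' : ℝ, 0 < c' ∧ ∃ X0 : ℝ, 1 ≤ X0 ∧ ∀ X : ℝ, X0 ≤ X → ∀ S : Set (ℤ × ℤ), S.Finite →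
      (∀ W : WeierstrassCurve ℤ, W.Δ ≠ 0 → IsCoprime W.c₄ W.Δ →
        (∃ (t : ℚ) (C : WeierstrassCurve.VariableChange ℚ),
          C • crv a1 a2 a3 t = W.map (Int.castRingHom ℚ)) → (cond W : ℝ) ≤ X →
        |(W.Δ : ℝ)| ≤ X ^ a → (W.c₄, W.c₆) ∈ S) →
      c' * X ^ ((2 : ℝ) / ((∑ i, n i : ℕ) : ℝ)) ≤ S.ncard := by
  classical
  obtain ⟨M, hM, hcrv⟩ := curve_of_pair hF h1 h2 h3 h0
  obtain ⟨K2, hK2, hup⟩ := dv_upper hF
  obtain ⟨K3, hK3, hpr⟩ := prod_upper hF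
  obtain ⟨q, hqe⟩ : ∃ q : ℕ, q = ∑ i, n i := ⟨_, rfl⟩
  rw [← hqe] at hpr ha hq ⊢
  have hq1 : (1 : ℝ) ≤ q := by exact_mod_cast hq
  have hq0 : (0 : ℝ) < q := by linarith
  have hk1 : (1 : ℝ) ≤ k := by exact_mod_cast hF.hk
  have hM1 : (1 : ℝ) ≤ M := by exact_mod_cast hM
  obtain ⟨c0, hc0⟩ : ∃ c0 : ℝ, c0 = 1 / ((1 + M) * K3 * K2) := ⟨_, rfl⟩
  have hden : (0 : ℝ) < (1 + M) * K3 * K2 := by positivity
  have hc00 : 0 < c0 := by rw [hc0]; positivity
  obtain ⟨X0, hX0⟩ : ∃ X0 : ℝ, X0 = (1 + 2 / c0 + 8 * (q + 1) / c0) ^ (q : ℝ) := ⟨_, rfl⟩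
  have hb1 : 1 ≤ 1 + 2 / c0 + 8 * (q + 1) / c0 := by
    have h4 : 0 ≤ 2 / c0 := by positivity
    have h5 : 0 ≤ 8 * ((q : ℝ) + 1) / c0 := by positivity
    linarith
  refine ⟨c0 ^ 2 / (64 * (12 * k)), by positivity, X0, ?_, fun X hX S hS hmem => ?_⟩
  · rw [hX0]
    exact Real.one_le_rpow hb1 hq0.le
  have hX1 : 1 ≤ X := le_trans (by rw [hX0]; exact Real.one_le_rpow hb1 hq0.le) hX
  have hX0' : 0 < X := by linarith
  obtain ⟨Z, hZ⟩ : ∃ Z : ℝ, Z = X ^ (1 / (q : ℝ)) := ⟨_, rfl⟩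
  have hZb : 1 + 2 / c0 + 8 * (q + 1) / c0 ≤ Z := by
    have h4 : X0 ^ (1 / (q : ℝ)) ≤ X ^ (1 / (q : ℝ)) :=
      Real.rpow_le_rpow (by rw [hX0]; positivity) hX (by positivity)
    rw [hX0, ← Real.rpow_mul (by linarith), mul_one_div_cancel hq0.ne', Real.rpow_one] at h4
    rw [hZ]
    exact h4
  have hZ1 : 1 ≤ Z := hb1.trans hZb
  have hZq : Z ^ q = X := by
    rw [hZ, ← Real.rpow_natCast, ← Real.rpow_mul hX0'.le, one_div_mul_cancel hq0.ne', Real.rpow_one]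
  have hZ2 : Z ^ 2 = X ^ ((2 : ℝ) / q) := by
    rw [hZ, ← Real.rpow_natCast, ← Real.rpow_mul hX0'.le]
    congr 1
    push_cast
    ring
  obtain ⟨H, hH⟩ : ∃ H : ℕ, H = ⌊c0 * Z⌋₊ := ⟨_, rfl⟩
  have hHle : (H : ℝ) ≤ c0 * Z := by rw [hH]; exact Nat.floor_le (by positivity)
  have hHge : c0 * Z / 2 ≤ (H : ℝ) := by
    have h4 := Nat.lt_floor_add_one (c0 * Z)
    rw [← hH] at h4
    have h5 : 2 ≤ c0 * Z := by
      have h6 : 2 / c0 ≤ Z := by
        have h7 : 0 ≤ 8 * ((q : ℝ) + 1) / c0 := by positivity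
        linarith
      calc (2 : ℝ) = c0 * (2 / c0) := by field_simp
        _ ≤ c0 * Z := mul_le_mul_of_nonneg_left h6 hc00.le
    linarith
  obtain ⟨s0, hs0, hcard0⟩ := many M H 1 hM
  -- the pairs
  obtain ⟨s1, hs1⟩ : ∃ s1 : Finset (ℤ × ℤ), s1 = s0.image (fun p => ((M : ℤ) * p.1, (p.2 : ℤ))) :=
    ⟨_, rfl⟩
  have hs1c : s1.card = s0.card := by
    rw [hs1, card_image_of_injective]
    intro p p' hpp
    simp only [Prod.mk.injEq] at hpp
    obtain ⟨h4, h5⟩ := hpp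
    have hMz : (M : ℤ) ≠ 0 := by exact_mod_cast (by omega : M ≠ 0)
    exact Prod.ext (by exact_mod_cast mul_left_cancel₀ hMz h4) (by exact_mod_cast h5)
  have hs1m : ∀ p ∈ s1, IsCoprime p.1 p.2 ∧ 0 < p.2 ∧ (M : ℤ) ∣ p.1 ∧
      max |(p.1 : ℝ)| |(p.2 : ℝ)| ≤ (1 + M) * H := by
    intro p hp
    rw [hs1] at hp
    obtain ⟨u, hu, rfl⟩ := mem_image.1 hp
    obtain ⟨g1, g2, g3, g4, g5, g6⟩ := hs0 u hu
    refine ⟨?_, Int.natCast_pos.2 g5, Dvd.intro _ rfl, ?_⟩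
    · change IsCoprime ((M : ℤ) * u.1) (u.2 : ℤ)
      exact IsCoprime.mul_left (Nat.isCoprime_iff_coprime.2 g2) (Nat.isCoprime_iff_coprime.2 g1)
    · change max |(((M : ℤ) * u.1 : ℤ) : ℝ)| |(((u.2 : ℕ) : ℤ) : ℝ)| ≤ _
      push_cast
      have g4' : (u.1 : ℝ) ≤ H := by exact_mod_cast g4
      have g6' : (u.2 : ℝ) ≤ (1 + M * 1) * H := by exact_mod_cast g6
      have hH0 : (0 : ℝ) ≤ H := Nat.cast_nonneg H
      refine max_le ?_ ?_
      · rw [abs_of_nonneg (by positivity)]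
        nlinarith
      · rw [abs_of_nonneg (by positivity)]
        linarith
  obtain ⟨s2, hs2⟩ : ∃ s2 : Finset (ℤ × ℤ), s2 = s1.filter (fun p => DV F n e c p ≠ 0) := ⟨_, rfl⟩
  have hs2c : s1.card ≤ s2.card + q := by
    have h4 := Finset.card_filter_add_card_filter_not (s := s1) (fun p => DV F n e c p ≠ 0)
    have h5 : (s1.filter (fun p => ¬ DV F n e c p ≠ 0)).card ≤ q := by
      rw [hqe]
      refine zero_pairs hF _ fun p hp => ?_
      obtain ⟨h6, h7⟩ := mem_filter.1 hp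
      obtain ⟨g1, g2, -, -⟩ := hs1m p h6
      exact ⟨g1, g2, not_not.1 h7⟩
    rw [← hs2] at h4
    omega
  have hkey : (s2.card : ℝ) ≤ 12 * k * S.ncard := by
    refine count_pairs hF s2 S hS fun p hp => ?_
    rw [hs2] at hp
    obtain ⟨hp1, hp2⟩ := mem_filter.1 hp
    obtain ⟨g1, g2, g3, g4⟩ := hs1m p hp1
    obtain ⟨W, w1, w2, w3, w4, w5, w6⟩ := hcrv p.1 p.2 g1 g2 g3 hp2
    refine ⟨g1, g2, W, w1, w5, w6, hmem W w1 w2 w3 ?_ ?_⟩
    · -- the conductor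
      have h4 : cond W ≤ c.natAbs * ∏ i, (hom (F i) (n i) p.1 p.2).natAbs := by
        refine Nat.le_of_dvd (Nat.pos_of_ne_zero ?_) (cond_dvd w4)
        refine mul_ne_zero (Int.natAbs_ne_zero.2 hF.hc) (Finset.prod_ne_zero_iff.2 fun i _ => ?_)
        refine Int.natAbs_ne_zero.2 fun h5 => hp2 ?_
        unfold DV
        rw [Finset.prod_eq_zero (mem_univ i) (by
          rw [h5]
          exact zero_pow (by have := hF.he i; omega)), mul_zero]
      have h5 : (cond W : ℝ) ≤ K3 * (max |(p.1 : ℝ)| |(p.2 : ℝ)|) ^ q :=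
        le_trans (by exact_mod_cast h4) (hpr p)
      have hm0 : 0 ≤ max |(p.1 : ℝ)| |(p.2 : ℝ)| := (abs_nonneg _).trans (le_max_left _ _)
      have h6 : max |(p.1 : ℝ)| |(p.2 : ℝ)| ≤ Z / K3 := by
        refine g4.trans ?_
        calc (1 + (M : ℝ)) * H ≤ (1 + M) * (c0 * Z) := by gcongr
          _ = Z / K3 * (1 / K2) := by rw [hc0]; field_simp
          _ ≤ Z / K3 * 1 := by
              refine mul_le_mul_of_nonneg_left ?_ (by positivity)
              rw [div_le_one (by linarith)]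
              exact hK2
          _ = Z / K3 := mul_one _
      calc (cond W : ℝ) ≤ K3 * (max |(p.1 : ℝ)| |(p.2 : ℝ)|) ^ q := h5
        _ ≤ K3 * (Z / K3) ^ q := by gcongr
        _ = K3 * (X / K3 ^ q) := by rw [div_pow, hZq]
        _ ≤ X := by
            have h7 : K3 ≤ K3 ^ q := le_self_pow₀ hK3 (by omega)
            have h8 : 0 < K3 ^ q := by positivity
            rw [mul_div_assoc', div_le_iff₀ h8]
            nlinarith
    · -- the discriminant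
      have h4 : |(W.Δ : ℝ)| ≤ |((DV F n e c p : ℤ) : ℝ)| := by
        have h5 : 136048896 * |(W.Δ : ℝ)| = |((DV F n e c p : ℤ) : ℝ)| := by
          rw [← abs_of_pos (by norm_num : (0 : ℝ) < 136048896), ← abs_mul]
          congr 1
          exact_mod_cast w4
        have := abs_nonneg (W.Δ : ℝ)
        linarith
      have hm0 : 0 ≤ max |(p.1 : ℝ)| |(p.2 : ℝ)| := (abs_nonneg _).trans (le_max_left _ _)
      have h6 : max |(p.1 : ℝ)| |(p.2 : ℝ)| ≤ Z / K2 := by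
        refine g4.trans ?_
        calc (1 + (M : ℝ)) * H ≤ (1 + M) * (c0 * Z) := by gcongr
          _ = Z / K2 * (1 / K3) := by rw [hc0]; field_simp
          _ ≤ Z / K2 * 1 := by
              refine mul_le_mul_of_nonneg_left ?_ (by positivity)
              rw [div_le_one (by linarith)]
              exact hK3
          _ = Z / K2 := mul_one _
      have hZk : Z ^ (12 * k) ≤ X ^ a := by
        rw [hZ, ← Real.rpow_natCast, ← Real.rpow_mul hX0'.le]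
        refine Real.rpow_le_rpow_of_exponent_le hX1 ?_
        push_cast
        calc 1 / (q : ℝ) * (12 * k) = 12 * k / q := by ring
          _ ≤ a := ha
      calc |(W.Δ : ℝ)| ≤ |((DV F n e c p : ℤ) : ℝ)| := h4
        _ ≤ K2 * (max |(p.1 : ℝ)| |(p.2 : ℝ)|) ^ (12 * k) := hup p
        _ ≤ K2 * (Z / K2) ^ (12 * k) := by gcongr
        _ = K2 * (Z ^ (12 * k) / K2 ^ (12 * k)) := by rw [div_pow]
        _ ≤ Z ^ (12 * k) := by
            have hk0 := hF.hk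
            have h7 : K2 ≤ K2 ^ (12 * k) := le_self_pow₀ hK2 (by omega)
            have h8 : 0 < K2 ^ (12 * k) := by positivity
            have h9 : 0 < Z ^ (12 * k) := by positivity
            rw [mul_div_assoc', div_le_iff₀ h8]
            nlinarith
        _ ≤ X ^ a := hZk
  -- conclusion
  have hfin : c0 ^ 2 / 64 * Z ^ 2 ≤ (s2.card : ℝ) := by
    have h4 : (s0.card : ℝ) ≤ (s2.card : ℝ) + q := by
      rw [← hs1c]
      exact_mod_cast hs2c
    have h5 : (c0 * Z / 2) ^ 2 / 8 ≤ (s0.card : ℝ) := by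
      refine le_trans ?_ hcard0
      push_cast
      have : (c0 * Z / 2) ^ 2 ≤ (H : ℝ) ^ 2 := pow_le_pow_left₀ (by positivity) hHge 2
      linarith
    have h6 : (q : ℝ) ≤ c0 ^ 2 / 64 * Z ^ 2 := by
      have h7 : 8 * ((q : ℝ) + 1) / c0 ≤ Z := by
        have : 0 ≤ 2 / c0 := by positivity
        linarith
      have h8 : 8 * ((q : ℝ) + 1) ≤ c0 * Z := by
        rw [div_le_iff₀ hc00] at h7
        linarith
      have h9 : (8 * ((q : ℝ) + 1)) ^ 2 ≤ (c0 * Z) ^ 2 := pow_le_pow_left₀ (by positivity) h8 2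
      have h10 : (c0 * Z) ^ 2 = c0 ^ 2 * Z ^ 2 := by ring
      nlinarith
    have h11 : (c0 * Z / 2) ^ 2 / 8 = c0 ^ 2 / 64 * Z ^ 2 + c0 ^ 2 / 64 * Z ^ 2 := by ring
    linarith
  rw [← hZ2]
  have hk0 : (0 : ℝ) < 12 * k := by positivity
  calc c0 ^ 2 / (64 * (12 * (k : ℝ))) * Z ^ 2 = (c0 ^ 2 / 64 * Z ^ 2) / (12 * (k : ℝ)) := by
        field_simp
    _ ≤ (S.ncard : ℝ) := by
        rw [div_le_iff₀ hk0]
        linarith

end Pool.Agent.T2h19.SZ
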