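import Pool.Agent.TH498.HF.K1
import Pool.Agent.TH498.HF.K2
import Pool.Agent.TH498.HF.K3
import Pool.Agent.TH498.HF.K4
import Pool.Agent.T2h19.SZ.P6

/-!
# Kubert's families for `ℤ/8`, `ℤ/10`, `ℤ/12` and `ℤ/2 × ℤ/8`
-/

set_option autoImplicit false

namespace Pool.Agent.T2h19.SZ

open Finset Polynomial Pool.Agent.W4.CF Pool.Agent.W4.VC Pool.Agent.TH498.KB
open Pool.Agent.TH498.HF

theorem famE_of {a1 a2 a3 : ℤ[X]} {m : ℕ} {f : Fin m → ℤ[X]} {n' : Fin m → ℕ} {k w L : ℕ}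
    {g : Fin w → ℤ[X]} {h : Fin L → ℤ[X]} {e : Fin w ⊕ Fin L → ℕ}
    (hB : FamB (27 * c4p a1 a2 a3) (54 * c6p a1 a2 a3) k m f n')
    (hg : ∀ j, (g j).natDegree ≤ 2) (hh : ∀ i, (h i).natDegree ≤ 1)
    (hprod : (∏ j, g j) * ∏ i, h i = ∏ i, f i) (hsum : 2 * w + L = ∑ i, n' i)
    (he : ∀ i, 1 ≤ e i) (hD : Dp a1 a2 a3 = ∏ i, Sum.elim g h i ^ e i)
    (hs : ∑ i, nn w L i * e i = 12 * k) :
    FamE (27 * c4p a1 a2 a3) (54 * c6p a1 a2 a3) k (Sum.elim g h) (nn w L) e 136048896 := by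
  have hle : (∏ i, f i).natDegree ≤ ∑ i, n' i :=
    (natDegree_prod_le _ _).trans (Finset.sum_le_sum fun i _ => hB.hn i)
  refine ⟨hB.hk, hB.hA, hB.hB, hB.hlead, hB.hcop, ?_, ?_, by norm_num, he, ?_, hs⟩
  · rintro (j | i)
    · exact hg j
    · exact hh i
  · rw [elim_prod, nn_sum, hprod, hsum]
    exact ⟨hB.hsq, hle, hB.hdeg⟩
  · rw [disc_id, hD]
    simp

noncomputable def g8 : Fin 1 → ℤ[X] := ![8 * X ^ 2 - 8 * X + 1]
noncomputable def h8 : Fin 4 → ℤ[X] := ![X, X - 1, 2 * X - 1, 1]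
def e8 : Fin 1 ⊕ Fin 4 → ℕ := Sum.elim ![1] ![8, 8, 4, 2]

theorem famE_z8 : FamE (27 * c4p a1_z8 a2_z8 a3_z8) (54 * c6p a1_z8 a2_z8 a3_z8) 2
    (Sum.elim g8 h8) (nn 1 4) e8 136048896 := by
  refine famE_of famB_z8 ?_ ?_ ?_ (by decide) (by decide) ?_ (by decide)
  · intro j
    fin_cases j
    simp only [g8, Fin.zero_eta, Matrix.cons_val_fin_one]
    compute_degree
  · intro i
    fin_cases i <;> simp [h8] <;> compute_degree
  · rw [prod_z8]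
    simp [g8, h8, Fin.prod_univ_succ]
    ring
  · rw [D_z8, Fintype.prod_sum_type]
    simp [g8, h8, e8, Fin.prod_univ_succ]
    ring

noncomputable def g10 : Fin 2 → ℤ[X] := ![X ^ 2 - 3 * X + 1, 4 * X ^ 2 - 2 * X - 1]
noncomputable def h10 : Fin 4 → ℤ[X] := ![X, X - 1, 2 * X - 1, 1]
def e10 : Fin 2 ⊕ Fin 4 → ℕ := Sum.elim ![2, 1] ![10, 10, 5, 5]

theorem famE_z10 : FamE (27 * c4p a1_z10 a2_z10 a3_z10) (54 * c6p a1_z10 a2_z10 a3_z10) 3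
    (Sum.elim g10 h10) (nn 2 4) e10 136048896 := by
  refine famE_of famB_z10 ?_ ?_ ?_ (by decide) (by decide) ?_ (by decide)
  · intro j
    fin_cases j <;> simp [g10] <;> compute_degree
  · intro i
    fin_cases i <;> simp [h10] <;> compute_degree
  · rw [prod_z10]
    simp [g10, h10, Fin.prod_univ_succ]
    ring
  · rw [D_z10, Fintype.prod_sum_type]
    simp [g10, h10, e10, Fin.prod_univ_succ]
    ring

noncomputable def g12 : Fin 3 → ℤ[X] :=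
  ![2 * X ^ 2 - 2 * X + 1, 3 * X ^ 2 - 3 * X + 1, 6 * X ^ 2 - 6 * X + 1]
noncomputable def h12 : Fin 4 → ℤ[X] := ![X, X - 1, 2 * X - 1, 1]
def e12 : Fin 3 ⊕ Fin 4 → ℕ := Sum.elim ![3, 4, 1] ![12, 12, 6, 2]

theorem famE_z12 : FamE (27 * c4p a1_z12 a2_z12 a3_z12) (54 * c6p a1_z12 a2_z12 a3_z12) 4
    (Sum.elim g12 h12) (nn 3 4) e12 136048896 := by
  refine famE_of famB_z12 ?_ ?_ ?_ (by decide) (by decide) ?_ (by decide)
  · intro j
    fin_cases j <;> simp [g12] <;> compute_degree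
  · intro i
    fin_cases i <;> simp [h12] <;> compute_degree
  · rw [prod_z12]
    simp [g12, h12, Fin.prod_univ_succ]
    ring
  · rw [D_z12, Fintype.prod_sum_type]
    simp [g12, h12, e12, Fin.prod_univ_succ]
    ring

noncomputable def g28 : Fin 3 → ℤ[X] :=
  ![2 * X ^ 2 - 1, 2 * X ^ 2 + 2 * X + 1, 2 * X ^ 2 + 4 * X + 1]
noncomputable def h28 : Fin 4 → ℤ[X] := ![X, X + 1, 2 * X + 1, 1]
def e28 : Fin 3 ⊕ Fin 4 → ℕ := Sum.elim ![2, 4, 2] ![8, 8, 8, 8]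

theorem famE_z2x8 : FamE (27 * c4p a1_z2x8 a2_z2x8 a3_z2x8) (54 * c6p a1_z2x8 a2_z2x8 a3_z2x8) 4
    (Sum.elim g28 h28) (nn 3 4) e28 136048896 := by
  refine famE_of famB_z2x8 ?_ ?_ ?_ (by decide) (by decide) ?_ (by decide)
  · intro j
    fin_cases j <;> simp [g28] <;> compute_degree
  · intro i
    fin_cases i <;> simp [h28] <;> compute_degree
  · rw [prod_z2x8]
    simp [g28, h28, Fin.prod_univ_succ]
    ring
  · rw [D_z2x8, Fintype.prod_sum_type]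
    simp [g28, h28, e28, Fin.prod_univ_succ]
    ring

/-- degrees and the constant term of `c₄` -/
theorem deg_z8 : (a1_z8).natDegree ≤ 2 ∧ (a2_z8).natDegree ≤ 2 * 2 ∧ (a3_z8).natDegree ≤ 3 * 2 ∧
    (c4p a1_z8 a2_z8 a3_z8).coeff 0 = 1 := by
  refine ⟨?_, ?_, ?_, ?_⟩
  · unfold a1_z8; compute_degree
  · unfold a2_z8; compute_degree
  · unfold a3_z8; compute_degree; norm_num
  · rw [c4_z8, coeff_zero_eq_eval_zero]
    simp

theorem deg_z10 : (a1_z10).natDegree ≤ 3 ∧ (a2_z10).natDegree ≤ 2 * 3 ∧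
    (a3_z10).natDegree ≤ 3 * 3 ∧ (c4p a1_z10 a2_z10 a3_z10).coeff 0 = 1 := by
  refine ⟨?_, ?_, ?_, ?_⟩
  · unfold a1_z10; compute_degree
  · unfold a2_z10; compute_degree; norm_num
  · unfold a3_z10; compute_degree; norm_num
  · rw [c4_z10, coeff_zero_eq_eval_zero]
    simp

theorem deg_z12 : (a1_z12).natDegree ≤ 4 ∧ (a2_z12).natDegree ≤ 2 * 4 ∧
    (a3_z12).natDegree ≤ 3 * 4 ∧ (c4p a1_z12 a2_z12 a3_z12).coeff 0 = 1 := by
  refine ⟨?_, ?_, ?_, ?_⟩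
  · unfold a1_z12; compute_degree
  · unfold a2_z12; compute_degree
  · unfold a3_z12; compute_degree; norm_num
  · rw [c4_z12, coeff_zero_eq_eval_zero]
    simp

theorem deg_z2x8 : (a1_z2x8).natDegree ≤ 4 ∧ (a2_z2x8).natDegree ≤ 2 * 4 ∧
    (a3_z2x8).natDegree ≤ 3 * 4 ∧ (c4p a1_z2x8 a2_z2x8 a3_z2x8).coeff 0 = 1 := by
  refine ⟨?_, ?_, ?_, ?_⟩
  · unfold a1_z2x8; compute_degree
  · unfold a2_z2x8; compute_degree; norm_num
  · unfold a3_z2x8; compute_degree; norm_num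
  · rw [c4_z2x8, coeff_zero_eq_eval_zero]
    simp

end Pool.Agent.T2h19.SZ
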